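import Mathlib
import Pool.Agent.Helper91.MC.Dict
import Pool.Agent.Helper51.MC.F4

/-!
MP_4042d8_co, row X_FCNT: the number of free vertices, for any colouring with all `mu` at most 1
(the computation is that of row F4 in `Helper51/MC/F4.lean`).
-/

set_option autoImplicit false
set_option linter.unusedSectionVars false
set_option linter.unusedSimpArgs false

namespace Pool.Agent.Helper92.MC

section gen

open Pool.Agent.Helper27.MC Pool.Agent.Helper51.MC

theorem f4_gen (V : Type) [Fintype V] [DecidableEq V] (G : SimpleGraph V) [DecidableRel G.Adj]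
    (hG : G.IsRegularOfDegree 3) (c : V → Bool) (j : ℕ) (hm : ∀ v, mu G c v ≤ 1)
    (hi : imb c = 2 * (j : ℤ)) :
    (Finset.univ.filter (fun v => Fr G c v)).card +
        (Finset.univ.filter (fun q => tQ G c q ∧
          ∃ s s', s ≠ s' ∧ G.Adj q s ∧ G.Adj q s' ∧ tS G c s ∧ tS G c s')).card =
      6 * j + (Finset.univ.filter (fun v => TD G c v)).card +
        (Finset.univ.filter (fun q => tQ G c q ∧ ∀ s, G.Adj q s → ¬ tS G c s)).card := by
  have hc := Pool.Agent.Helper4.MC.CNT V G hG c hm
  rw [hi] at hc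
  -- the double count
  have hd : ∑ s ∈ Finset.univ.filter (fun v => tS G c v),
      ((Finset.univ.filter (fun w => G.Adj s w ∧ tQ G c w)).card : ℤ) =
      ∑ q ∈ Finset.univ.filter (fun v => tQ G c v),
      ((Finset.univ.filter (fun w => G.Adj q w ∧ tS G c w)).card : ℤ) := by
    have e1 : ∀ s : V, ((Finset.univ.filter (fun w => G.Adj s w ∧ tQ G c w)).card : ℤ) =
        ∑ q ∈ Finset.univ.filter (fun v => tQ G c v), (if G.Adj s q then (1 : ℤ) else 0) := by
      intro s
      rw [Finset.card_filter, Finset.sum_filter]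
      push_cast
      refine Finset.sum_congr rfl fun q _ => ?_
      by_cases h1 : G.Adj s q <;> by_cases h2 : tQ G c q <;> simp [h1, h2]
    have e2 : ∀ q : V, ((Finset.univ.filter (fun w => G.Adj q w ∧ tS G c w)).card : ℤ) =
        ∑ s ∈ Finset.univ.filter (fun v => tS G c v), (if G.Adj s q then (1 : ℤ) else 0) := by
      intro q
      rw [Finset.card_filter, Finset.sum_filter]
      push_cast
      refine Finset.sum_congr rfl fun s _ => ?_
      by_cases h1 : G.Adj s q <;> by_cases h2 : tS G c s <;> simp [h1, h2, G.adj_comm q s]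
    simp only [e1, e2]
    exact Finset.sum_comm
  have hL : ∑ s ∈ Finset.univ.filter (fun v => tS G c v),
      ((Finset.univ.filter (fun w => G.Adj s w ∧ tQ G c w)).card : ℤ) =
      (Finset.univ.filter (fun v => tS G c v)).card -
        (Finset.univ.filter (fun v => Fr G c v)).card +
        (Finset.univ.filter (fun v => TD G c v)).card := by
    have e1 : ∑ s ∈ Finset.univ.filter (fun v => tS G c v),
        ((Finset.univ.filter (fun w => G.Adj s w ∧ tQ G c w)).card : ℤ) =
        ∑ s ∈ Finset.univ.filter (fun v => tS G c v),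
          (1 - (if Fr G c s then (1 : ℤ) else 0) + (if TD G c s then 1 else 0)) := by
      refine Finset.sum_congr rfl fun s hs => ?_
      exact kq_eq G hG c hm (Finset.mem_filter.1 hs).2
    rw [e1, Finset.sum_add_distrib, Finset.sum_sub_distrib]
    have e2 : ∑ s ∈ Finset.univ.filter (fun v => tS G c v), (if Fr G c s then (1 : ℤ) else 0) =
        (Finset.univ.filter (fun v => Fr G c v)).card := by
      rw [← Finset.sum_filter, Finset.filter_filter, Finset.card_eq_sum_ones]
      push_cast
      refine Finset.sum_congr ?_ fun _ _ => rfl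
      ext v
      simp only [Finset.mem_filter, Finset.mem_univ, true_and]
      exact ⟨fun h => h.2, fun h => ⟨h.1, h⟩⟩
    have e3 : ∑ s ∈ Finset.univ.filter (fun v => tS G c v), (if TD G c s then (1 : ℤ) else 0) =
        (Finset.univ.filter (fun v => TD G c v)).card := by
      rw [← Finset.sum_filter, Finset.filter_filter, Finset.card_eq_sum_ones]
      push_cast
      refine Finset.sum_congr ?_ fun _ _ => rfl
      ext v
      simp only [Finset.mem_filter, Finset.mem_univ, true_and]
      exact ⟨fun h => h.2, fun h => ⟨h.1, h⟩⟩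
    rw [e2, e3]
    simp
  have hR : ∑ q ∈ Finset.univ.filter (fun v => tQ G c v),
      ((Finset.univ.filter (fun w => G.Adj q w ∧ tS G c w)).card : ℤ) =
      (Finset.univ.filter (fun v => tQ G c v)).card -
        (Finset.univ.filter (fun q => tQ G c q ∧ ∀ s, G.Adj q s → ¬ tS G c s)).card +
        (Finset.univ.filter (fun q => tQ G c q ∧
          ∃ s s', s ≠ s' ∧ G.Adj q s ∧ G.Adj q s' ∧ tS G c s ∧ tS G c s')).card := by
    have e1 : ∑ q ∈ Finset.univ.filter (fun v => tQ G c v),
        ((Finset.univ.filter (fun w => G.Adj q w ∧ tS G c w)).card : ℤ) =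
        ∑ q ∈ Finset.univ.filter (fun v => tQ G c v),
          (1 - (if (∀ s, G.Adj q s → ¬ tS G c s) then (1 : ℤ) else 0) +
            (if (∃ s s', s ≠ s' ∧ G.Adj q s ∧ G.Adj q s' ∧ tS G c s ∧ tS G c s') then 1
              else 0)) := by
      refine Finset.sum_congr rfl fun s hs => ?_
      exact ks_eq G hG c (Finset.mem_filter.1 hs).2
    rw [e1, Finset.sum_add_distrib, Finset.sum_sub_distrib]
    have e2 : ∑ q ∈ Finset.univ.filter (fun v => tQ G c v),
        (if (∀ s, G.Adj q s → ¬ tS G c s) then (1 : ℤ) else 0) =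
        (Finset.univ.filter (fun q => tQ G c q ∧ ∀ s, G.Adj q s → ¬ tS G c s)).card := by
      rw [← Finset.sum_filter, Finset.filter_filter, Finset.card_eq_sum_ones]
      push_cast
      rfl
    have e3 : ∑ q ∈ Finset.univ.filter (fun v => tQ G c v),
        (if (∃ s s', s ≠ s' ∧ G.Adj q s ∧ G.Adj q s' ∧ tS G c s ∧ tS G c s') then (1 : ℤ)
          else 0) =
        (Finset.univ.filter (fun q => tQ G c q ∧
          ∃ s s', s ≠ s' ∧ G.Adj q s ∧ G.Adj q s' ∧ tS G c s ∧ tS G c s')).card := by
      rw [← Finset.sum_filter, Finset.filter_filter, Finset.card_eq_sum_ones]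
      push_cast
      rfl
    rw [e2, e3]
    simp
  rw [hL, hR] at hd
  have key : ((Finset.univ.filter (fun v => Fr G c v)).card : ℤ) +
      ((Finset.univ.filter (fun q => tQ G c q ∧
          ∃ s s', s ≠ s' ∧ G.Adj q s ∧ G.Adj q s' ∧ tS G c s ∧ tS G c s')).card : ℤ) =
      6 * (j : ℤ) + ((Finset.univ.filter (fun v => TD G c v)).card : ℤ) +
        ((Finset.univ.filter (fun q => tQ G c q ∧ ∀ s, G.Adj q s → ¬ tS G c s)).card : ℤ) := by
    linarith
  exact_mod_cast key

end gen

section row

open Pool.Agent.Helper27.MC hiding Fr T1 ter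
open Pool.Agent.Helper51.MC Pool.Agent.Helper88.MC Pool.Agent.Helper64.MC Pool.Agent.Helper91.MC

/-- row X_FCNT -/
theorem st_FCNT : ST_FCNT := by
  intro V _ _ G _ hG c j hm hi
  refine ⟨?_, ?_⟩
  · have h := f4_gen V G hG c j hm hi
    have e1 : Finset.univ.filter (fun v => Pool.Agent.Helper27.MC.Fr G c v) = Fr G c := by
      ext v
      rw [Finset.mem_filter]
      exact ⟨fun k => (dict_Fr hG hm v).2 k.2, fun k => ⟨Finset.mem_univ _, (dict_Fr hG hm v).1 k⟩⟩
    have e2 : Finset.univ.filter (fun q => tQ G c q ∧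
          ∃ s s', s ≠ s' ∧ G.Adj q s ∧ G.Adj q s' ∧ tS G c s ∧ tS G c s') = Th G c := by
      ext v
      rw [Finset.mem_filter]
      exact ⟨fun k => (dict_Th hG v).2 k.2, fun k => ⟨Finset.mem_univ _, (dict_Th hG v).1 k⟩⟩
    have e3 : Finset.univ.filter (fun v => Pool.Agent.Helper27.MC.TD G c v) = Dd G c := by
      ext v
      rw [Finset.mem_filter]
      exact ⟨fun k => (dict_D hG hm v).2 k.2, fun k => ⟨Finset.mem_univ _, (dict_D hG hm v).1 k⟩⟩
    have e4 : Finset.univ.filter (fun q => tQ G c q ∧ ∀ s, G.Adj q s → ¬ tS G c s) = Q0 G c := by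
      ext v
      rw [Finset.mem_filter]
      exact ⟨fun k => (dict_Q0 v).2 k.2, fun k => ⟨Finset.mem_univ _, (dict_Q0 v).1 k⟩⟩
    rw [e1, e2, e3, e4] at h
    exact h
  · intro s hs
    obtain ⟨m, a, b, nb, cm, ca, cb, hab, hma, hmb⟩ := s_data hG hs
    have S : Sv G c s m a b := ⟨hs.1, cm, ca, cb, ⟨nb, hma, hmb, hab⟩⟩
    rcases tA_or_tQ hm ca with h1 | h1 <;> rcases tA_or_tQ hm cb with h2 | h2
    · exact Or.inl ((sv_Fr hm S).2 ⟨h1, h2⟩)
    · exact Or.inr (Or.inl ((sv_T1 hm S).2 (Or.inl ⟨h1, h2⟩)))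
    · exact Or.inr (Or.inl ((sv_T1 hm S).2 (Or.inr ⟨h1, h2⟩)))
    · exact Or.inr (Or.inr ((sv_Dd hm S).2 ⟨h1, h2⟩))

end row

end Pool.Agent.Helper92.MC
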