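import Pool.Agent.Helper45.MC.StE
import Pool.Agent.Helper91.MC.SVX
import Pool.Agent.Helper78.MC.SQ

/-!
MP_4042d8_co, section E, row E_UC: the unit `{u, a, t, k, s}` with two paths on four vertices.
-/

set_option autoImplicit false
set_option linter.unusedSectionVars false
set_option linter.unusedSimpArgs false
set_option linter.unusedVariables false

namespace Pool.Agent.Helper92.MC

open Pool.Agent.Helper27.MC Pool.Agent.Helper51.MC Pool.Agent.Helper88.MC Pool.Agent.Helper64.MC
  Pool.Agent.Helper91.MC Pool.Agent.Helper78.MC Pool.Agent.Helper45.MC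

/-- row E_UC -/
theorem st_UC : ST_UC := by
  intro V _ _ G _ hG c hm u m a b t t' q k g s Su Tb Aa St Rqk Nk Bg hq hs hst hst' hsm hsb
  obtain ⟨n, y, p, ns, cs, cn, cy, cp, nyp, my, mp⟩ := t1_data hG hm hs
  have ma := av_mu Aa
  have uS := sv_tS hm Su
  have tS' := sv_tS hm St
  have tS'' := sv_tSm hm St
  have sS := (mem_T1.1 hs).1
  have rum := sv_rm Su
  have rtt := sv_rm St
  obtain ⟨cu, cm, ca, cb, ⟨nu, nma, nmb, nab⟩⟩ := Su
  obtain ⟨ct, ct', -, cq, ⟨nt, nt'a, nt'q, naq⟩⟩ := St
  obtain ⟨-, -, -, -, ⟨na, nut, nut', -⟩⟩ := Aa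
  obtain ⟨nk, nqt', nqg, nt'g⟩ := Nk
  have ck : c k = true := by rw [Rqk.2, cq]
  have cg := Bg.1
  have hsym : ∀ y y', G.Adj y y' ↔ G.Adj y' y := fun y y' => G.adj_comm y y'
  have hrm : ∀ y y', G.Adj y y' → c y = c y' → Rm G c y y' := fun y y' h e => ⟨h, e.symm⟩
  have tf : ∀ {x y : V}, c x = true → c y = false → x ≠ y := by
    intro x y h1 h2 h
    rw [h, h2] at h1
    cases h1
  have rsn : Rm G c s n := hrm s n ((ns n).2 (Or.inl rfl)) (by rw [cs, cn])
  obtain ⟨p', hp'⟩ := exists_mate mp
  have cp' : c p' = true := by rw [hp'.2, cp]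
  have mk : mu G c k = 1 := mu_of_rm hm Rqk.symm
  have mq : mu G c q = 1 := mu_of_rm hm Rqk
  have mp' : mu G c p' = 1 := mu_of_rm hm hp'.symm
  have hsu : s ≠ u := by
    rintro rfl
    rcases (nu p).1 ((ns p).2 (by simp)) with h | h | h
    · exact tf cp cm h
    · rw [h, ma] at mp; cases mp
    · rw [h, Tb.2] at mp; cases mp
  have hsg : s ≠ g := by
    rintro rfl
    have := sS.2
    rw [Bg.2] at this
    cases this
  have hak : a ≠ k := by rintro rfl; rw [ma] at mk; cases mk
  have hbk : b ≠ k := by rintro rfl; rw [Tb.2] at mk; cases mk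
  have hqb : q ≠ b := by rintro rfl; rw [Tb.2] at mq; cases mq
  have hqk : q ≠ k := Rqk.ne
  have hnu : n ≠ u := by
    rintro rfl
    exact hsm (rm_uniq (hm _) rsn.symm rum)
  have hnt : n ≠ t := by
    rintro rfl
    exact hst' (rm_uniq (hm _) rsn.symm rtt)
  have hns : n ≠ s := rsn.ne.symm
  have hgu : g ≠ u := by
    rintro rfl
    have := uS.2
    rw [Bg.2] at this
    cases this
  have hgt : g ≠ t := by
    rintro rfl
    have := tS'.2
    rw [Bg.2] at this
    cases this
  have hgt' : g ≠ t' := nt'g.symm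
  have hya : y ≠ a := by
    rintro rfl
    rcases (na s).1 ((ns y).2 (by simp)).symm with h | h | h
    · exact hsu h
    · exact hst h
    · exact hst' h
  have hyb : y ≠ b := by
    rintro rfl
    exact hsb ((ns y).2 (by simp))
  have hyk : y ≠ k := by rintro rfl; rw [my] at mk; cases mk
  have hyq : y ≠ q := by rintro rfl; rw [my] at mq; cases mq
  have hpa : p ≠ a := by rintro rfl; rw [ma] at mp; cases mp
  have hpb : p ≠ b := by rintro rfl; rw [Tb.2] at mp; cases mp
  have hpk : p ≠ k := by
    rintro rfl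
    rcases (nk s).1 ((ns p).2 (by simp)).symm with h | h | h
    · exact tf cq cs h.symm
    · exact hst' h
    · exact hsg h
  have hpq : p ≠ q := by
    rintro rfl
    exact hst (hq s ((ns p).2 (by simp)).symm sS)
  have hp'a : p' ≠ a := by rintro rfl; rw [ma] at mp'; cases mp'
  have hp'b : p' ≠ b := by rintro rfl; rw [Tb.2] at mp'; cases mp'
  have hp'k : p' ≠ k := by
    rintro rfl
    exact hpq (rm_uniq (hm _) hp'.symm Rqk.symm)
  have hp'q : p' ≠ q := by
    rintro rfl
    exact hpk (rm_uniq (hm _) hp'.symm Rqk)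
  have hp'y : p' ≠ y := by rintro rfl; rw [my] at mp'; cases mp'
  have hum : u ≠ m := rum.ne
  have hmt : m ≠ t := by
    rintro rfl
    exact nut' (rm_uniq (hm _) rum.symm rtt)
  have dX : dd c ({u, a, t, k, s} : Finset V) = 1 := by
    have e1 : u ≠ a := (tf ca cu).symm
    have e2 : u ≠ k := (tf ck cu).symm
    have e3 : a ≠ t := tf ca ct
    have e4 : a ≠ s := tf ca cs
    have e5 : t ≠ k := (tf ck ct).symm
    have e6 : k ≠ s := tf ck cs
    unfold dd
    rw [Finset.sum_insert (by simp [e1, e2, nut, hsu.symm]), Finset.sum_insert (by simp [e3, e4, hak]),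
      Finset.sum_insert (by simp [e5, hst.symm]), Finset.sum_insert (by simp [e6]), Finset.sum_singleton]
    simp [cu, ca, ct, ck, cs]
  have mX : ∀ y, y ∈ ({u, a, t, k, s} : Finset V) ↔ y = u ∨ y = a ∨ y = t ∨ y = k ∨ y = s := by
    intro y
    simp
  generalize hX : ({u, a, t, k, s} : Finset V) = X at mX dX
  have iu : u ∈ X := by rw [mX]; simp
  have ia : a ∈ X := by rw [mX]; simp
  have it : t ∈ X := by rw [mX]; simp
  have ik : k ∈ X := by rw [mX]; simp
  have is : s ∈ X := by rw [mX]; simp
  have oc : ∀ y, c y = true → y ≠ a → y ≠ k → y ∉ X := by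
    intro y h1 h2 h3 h
    rcases (mX y).1 h with h | h | h | h | h
    · rw [h, cu] at h1; cases h1
    · exact h2 h
    · rw [h, ct] at h1; cases h1
    · exact h3 h
    · rw [h, cs] at h1; cases h1
  have oc' : ∀ y, c y = false → y ≠ u → y ≠ t → y ≠ s → y ∉ X := by
    intro y h1 h2 h3 h4 h
    rcases (mX y).1 h with h | h | h | h | h
    · exact h2 h
    · rw [h, ca] at h1; cases h1
    · exact h3 h
    · rw [h, ck] at h1; cases h1
    · exact h4 h
  have ob := oc b cb nab.symm hbk
  have oq := oc q cq naq.symm hqk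
  have oy := oc y cy hya hyk
  have op := oc p cp hpa hpk
  have op' := oc p' cp' hp'a hp'k
  have ot' := oc' t' ct' nut'.symm rtt.ne.symm hst'.symm
  have og := oc' g cg hgu hgt hsg.symm
  have on := oc' n cn hnu hnt hns
  have om : m ∉ X := oc' m cm hum.symm hmt hsm.symm
  have fu : flp c X u = true := by rw [flp_in iu, cu]; rfl
  have fa : flp c X a = false := by rw [flp_in ia, ca]; rfl
  have ft : flp c X t = true := by rw [flp_in it, ct]; rfl
  have fk : flp c X k = false := by rw [flp_in ik, ck]; rfl
  have fs : flp c X s = true := by rw [flp_in is, cs]; rfl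
  have fb : flp c X b = true := by rw [flp_not ob, cb]
  have fq : flp c X q = true := by rw [flp_not oq, cq]
  have fy : flp c X y = true := by rw [flp_not oy, cy]
  have fp : flp c X p = true := by rw [flp_not op, cp]
  have ft' : flp c X t' = false := by rw [flp_not ot', ct']
  have fg : flp c X g = false := by rw [flp_not og, cg]
  have fn : flp c X n = false := by rw [flp_not on, cn]
  have fm : flp c X m = false := by rw [flp_not om, cm]
  have Ru : ∀ w, Rm G (flp c X) u w ↔ w = b := by
    intro w; rw [rm3 nu, fu, fa, fb, fm]; simp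
  have Ra : ∀ w, Rm G (flp c X) a w ↔ w = t' := by
    intro w; rw [rm3 na, fu, fa, ft, ft']; simp
  have Rt : ∀ w, Rm G (flp c X) t w ↔ w = q := by
    intro w; rw [rm3 nt, ft, fa, fq, ft']; simp
  have Rk : ∀ w, Rm G (flp c X) k w ↔ w = t' ∨ w = g := by
    intro w; rw [rm3 nk, fq, fk, ft', fg]; simp
  have Rs : ∀ w, Rm G (flp c X) s w ↔ w = y ∨ w = p := by
    intro w; rw [rm3 ns, fs, fy, fp, fn]; simp
  -- true vertices outside
  have adu : ∀ w, c w = true → G.Adj w u → w = a ∨ w = b := by
    intro w h1 h2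
    rcases (nu w).1 h2.symm with h | h | h
    · exact (tf h1 cm h).elim
    · exact Or.inl h
    · exact Or.inr h
  have adt : ∀ w, c w = true → G.Adj w t → w = a ∨ w = q := by
    intro w h1 h2
    rcases (nt w).1 h2.symm with h | h | h
    · exact (tf h1 ct' h).elim
    · exact Or.inl h
    · exact Or.inr h
  have ads : ∀ w, c w = true → G.Adj w s → w = y ∨ w = p := by
    intro w h1 h2
    rcases (ns w).1 h2.symm with h | h | h
    · exact (tf h1 cn h).elim
    · exact Or.inl h
    · exact Or.inr h
  have ada : ∀ w, G.Adj w a → w = u ∨ w = t ∨ w = t' := fun w h => (na w).1 h.symm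
  have adk : ∀ w, c w = false → G.Adj w k → w = t' ∨ w = g := by
    intro w h1 h2
    rcases (nk w).1 h2.symm with h | h | h
    · exact (tf cq h1 h.symm).elim
    · exact Or.inl h
    · exact Or.inr h
  have Ty : ∀ w, w ∈ X → ∀ z, c z = true → c w ≠ c z → w = u ∨ w = t ∨ w = s := by
    intro w hw z hz hc
    rcases (mX w).1 hw with h | h | h | h | h
    · exact Or.inl h
    · rw [h, ca, hz] at hc; exact (hc rfl).elim
    · exact Or.inr (Or.inl h)
    · rw [h, ck, hz] at hc; exact (hc rfl).elim
    · exact Or.inr (Or.inr h)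
  have Fy : ∀ w, w ∈ X → ∀ z, c z = false → c w ≠ c z → w = a ∨ w = k := by
    intro w hw z hz hc
    rcases (mX w).1 hw with h | h | h | h | h
    · rw [h, cu, hz] at hc; exact (hc rfl).elim
    · exact Or.inl h
    · rw [h, ct, hz] at hc; exact (hc rfl).elim
    · exact Or.inr h
    · rw [h, cs, hz] at hc; exact (hc rfl).elim
  have Rb : ∀ w, Rm G (flp c X) b w → w = u := by
    intro w
    rw [rm0 Tb.2 ob]
    rintro ⟨h1, h2, h3⟩
    rcases Ty w h1 b cb h3 with h | h | h
    · exact h
    · subst h
      rcases adt b cb h2 with h | h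
      · exact (nab h.symm).elim
      · exact (hqb h.symm).elim
    · subst h
      exact (hsb h2.symm).elim
  have Rq : ∀ w, Rm G (flp c X) q w → w = t := by
    intro w
    rw [rm_out oq]
    rintro (⟨h1, h2⟩ | ⟨h1, h2, h3⟩)
    · rw [rm_uniq (hm _) h2 Rqk] at h1
      exact (h1 ik).elim
    · rcases Ty w h1 q cq h3 with h | h | h
      · subst h
        rcases adu q cq h2 with h | h
        · exact (naq h.symm).elim
        · exact (hqb h).elim
      · exact h
      · subst h
        exact hq w h2 sS
  have Ry : ∀ w, Rm G (flp c X) y w ↔ w = s := by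
    intro w
    rw [rm0 my oy]
    constructor
    · rintro ⟨h1, h2, h3⟩
      rcases Ty w h1 y cy h3 with h | h | h
      · subst h
        rcases adu y cy h2 with h | h
        · exact (hya h).elim
        · exact (hyb h).elim
      · subst h
        rcases adt y cy h2 with h | h
        · exact (hya h).elim
        · exact (hyq h).elim
      · exact h
    · rintro rfl
      exact ⟨is, ((ns y).2 (by simp)).symm, by rw [cs, cy]; decide⟩
  have Rp : ∀ w, Rm G (flp c X) p w ↔ w = s ∨ w = p' := by
    intro w
    rw [rm_out op]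
    constructor
    · rintro (⟨h1, h2⟩ | ⟨h1, h2, h3⟩)
      · exact Or.inr (rm_uniq (hm _) h2 hp')
      · rcases Ty w h1 p cp h3 with h | h | h
        · subst h
          rcases adu p cp h2 with h | h
          · exact (hpa h).elim
          · exact (hpb h).elim
        · subst h
          rcases adt p cp h2 with h | h
          · exact (hpa h).elim
          · exact (hpq h).elim
        · exact Or.inl h
    · rintro (rfl | rfl)
      · exact Or.inr ⟨is, ((ns p).2 (by simp)).symm, by rw [cs, cp]; decide⟩
      · exact Or.inl ⟨op', hp'⟩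
  have Rp' : ∀ w, Rm G (flp c X) p' w ↔ w = p := by
    intro w
    rw [rm_out op']
    constructor
    · rintro (⟨h1, h2⟩ | ⟨h1, h2, h3⟩)
      · exact rm_uniq (hm _) h2 hp'.symm
      · exfalso
        rcases Ty w h1 p' cp' h3 with h | h | h
        · subst h
          rcases adu p' cp' h2 with h | h
          · exact hp'a h
          · exact hp'b h
        · subst h
          rcases adt p' cp' h2 with h | h
          · exact hp'a h
          · exact hp'q h
        · subst h
          rcases ads p' cp' h2 with h | h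
          · exact hp'y h
          · exact hp'.ne h.symm
    · rintro rfl
      exact Or.inl ⟨op, hp'.symm⟩
  have Rt' : ∀ w, Rm G (flp c X) t' w ↔ w = a ∨ w = k := by
    intro w
    rw [rm_out ot']
    constructor
    · rintro (⟨h1, h2⟩ | ⟨h1, h2, h3⟩)
      · rw [rm_uniq (hm _) h2 rtt.symm] at h1
        exact (h1 it).elim
      · exact Fy w h1 t' ct' h3
    · rintro (rfl | rfl)
      · exact Or.inr ⟨ia, ((na t').2 (by simp)).symm, by rw [ca, ct']; decide⟩
      · exact Or.inr ⟨ik, ((nk t').2 (by simp)).symm, by rw [ck, ct']; decide⟩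
  have Rg : ∀ w, Rm G (flp c X) g w ↔ w = k := by
    intro w
    rw [rm0 Bg.2 og]
    constructor
    · rintro ⟨h1, h2, h3⟩
      rcases Fy w h1 g cg h3 with h | h
      · subst h
        rcases ada g h2 with h | h | h
        · exact (hgu h).elim
        · exact (hgt h).elim
        · exact (hgt' h).elim
      · exact h
    · rintro rfl
      exact ⟨ik, ((nk g).2 (by simp)).symm, by rw [ck, cg]; decide⟩
  have Rt'2 : ∀ w, Rm G (flp c X) t' w ↔ w = a ∨ w = k := Rt'
  refine ⟨Finset.univ, ?_⟩
  refine Blk.of2 (Finset.subset_univ _) dX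
    (comp4 nyp (tf cp' cs).symm fy Ry Rs Rp Rp')
    (comp4 hak hgt'.symm fa Ra Rt' Rk Rg) (fun _ => Finset.mem_univ _) (fun _ => Finset.mem_univ _) ?_
  intro w h1 h2
  have w1 : w ≠ y := h1 0
  have w2 : w ≠ s := h1 1
  have w3 : w ≠ p := h1 2
  have w4 : w ≠ p' := h1 3
  have w5 : w ≠ a := h2 0
  have w6 : w ≠ t' := h2 1
  have w7 : w ≠ k := h2 2
  have w8 : w ≠ g := h2 3
  by_cases wu : w = u
  · subst wu; exact mu_le_one fun y' h => (Ru y').1 h
  by_cases wt : w = t
  · subst wt; exact mu_le_one fun y' h => (Rt y').1 h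
  by_cases wb : w = b
  · subst wb; exact mu_le_one fun y' h => Rb y' h
  by_cases wq : w = q
  · subst wq; exact mu_le_one fun y' h => Rq y' h
  have ow : w ∉ X := by
    rw [mX]
    push Not
    exact ⟨wu, w5, wt, w7, w2⟩
  refine mu_old hm ow ?_
  intro z hz hadj hc
  rw [mX] at hz
  rcases hz with rfl | rfl | rfl | rfl | rfl
  · rcases (nu w).1 hadj.symm with h | h | h
    · rw [h, cm, cu] at hc; exact hc rfl
    · exact w5 h
    · exact wb h
  · rcases (na w).1 hadj.symm with h | h | h
    · exact wu h
    · exact wt h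
    · exact w6 h
  · rcases (nt w).1 hadj.symm with h | h | h
    · exact w6 h
    · exact w5 h
    · exact wq h
  · rcases (nk w).1 hadj.symm with h | h | h
    · exact wq h
    · exact w6 h
    · exact w8 h
  · rcases (ns w).1 hadj.symm with h | h | h
    · rw [h, cn, cs] at hc; exact hc rfl
    · exact w1 h
    · exact w3 h

end Pool.Agent.Helper92.MC
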