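import Pool.Agent.Helper33.MC.StG

/-!
MP_4042d8_co, section D, part II: counting lemma for the doubled weights.
-/

set_option autoImplicit false
set_option linter.unusedSectionVars false
set_option linter.unusedSimpArgs false
set_option linter.unusedVariables false

namespace Pool.Agent.Helper92.MC

open Pool.Agent.Helper27.MC hiding Fr T1 ter
open Pool.Agent.Helper51.MC Pool.Agent.Helper88.MC Pool.Agent.Helper64.MC
open Pool.Agent.Helper91.MC Pool.Agent.Helper33.MC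
open Pool.Agent.Helper79.MC (Sqg)
open Pool.Agent.Helper91.MC.GK (Khb)
open Pool.Agent.Helper96.MC (Td Apx Lx Exm)

variable {V : Type} [Fintype V] [DecidableEq V] {G : SimpleGraph V} [DecidableRel G.Adj]
  {c : V → Bool} {j : ℕ} {L : V → V → Prop} {H H' : Finset V}

theorem mem_goodG {p : V × V} : p ∈ goodG G c L H ↔ GSG G c L H p.1 p.2 := by
  unfold goodG
  simp

theorem mem_goodB {t : V} : t ∈ goodB G c H ↔ GB G c H t := by
  unfold goodB
  simp

theorem mem_liv {t : V} : t ∈ live G c H ↔ Live G c H t := by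
  unfold live
  simp

/-- the two vertices of a `K`-hub are in `T1` -/
theorem khb_T1 (hm : ∀ v, mu G c v ≤ 1) {u v a b t1 t2 r1 r2 p1 p2 : V}
    (K : Khb G c u v a b t1 t2 r1 r2 p1 p2) : t1 ∈ T1 G c ∧ t2 ∈ T1 G c := by
  constructor
  · exact (sv_T1 hm K.h1).2 (Or.inl ⟨K.ta, K.h1.cb, mu_of_rm hm K.q1⟩)
  · exact (sv_T1 hm K.h2).2 (Or.inl ⟨K.ta, K.h2.cb, mu_of_rm hm K.q2⟩)

theorem khb_Fr (hm : ∀ v, mu G c v ≤ 1) {u v a b t1 t2 r1 r2 p1 p2 : V}
    (K : Khb G c u v a b t1 t2 r1 r2 p1 p2) : u ∈ Fr G c :=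
  (sv_Fr hm K.hu).2 ⟨K.ta, K.tb⟩

theorem not_fr_t1 {t : V} (h : t ∈ T1 G c) : t ∉ Fr G c := by
  intro h'
  have h1 := (mem_Fr.1 h').2
  have h2 := (mem_T1.1 h).2
  omega

/-- a `K`-slot is not a good slot -/
theorem khb_not_gsg (F : FxG G c j L) {u v a b t1 t2 r1 r2 p1 p2 : V}
    (K : Khb G c u v a b t1 t2 r1 r2 p1 p2) : ¬ GSG G c L H u a := by
  have hm := F.mu1
  have hT := khb_T1 hm K
  have m12 := sv_rm K.h1
  have n1 : u ≠ t1 := K.ha.n3.xy
  have n2 : u ≠ t2 := K.ha.n3.xz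
  have e1 : G.Adj a t1 := (K.ha.n3.nb t1).2 (by simp)
  have e2 : G.Adj a t2 := (K.ha.n3.nb t2).2 (by simp)
  rintro ⟨hl, h⟩
  have b1 : ¬ Bare G c H u t1 := by
    intro hb
    rcases hb t2 m12 with h1 | h1
    · exact n2 h1.symm
    · exact hl.2.2.2.2.2 t2 e2 h1
  have b2 : ¬ Bare G c H u t2 := by
    intro hb
    rcases hb t1 m12.symm with h1 | h1
    · exact n1 h1.symm
    · exact hl.2.2.2.2.2 t1 e1 h1
  rcases h with h | ⟨t, h1, h2, h3, h4⟩ | ⟨g, h1, h2, h3, h4, h5⟩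
  · exact b1 (h t1 e1 n1.symm)
  · by_cases ht : t1 = t
    · exact b2 (h4 t2 e2 n2.symm (by rw [← ht]; exact m12.ne.symm))
    · exact b1 (h4 t1 e1 n1.symm ht)
  · rcases (K.ha.n3.nb g).1 h1 with h6 | h6 | h6
    · exact h2 h6
    · rw [h6] at h4
      exact not_fr_t1 hT.1 h4.1
    · rw [h6] at h4
      exact not_fr_t1 hT.2 h4.1

/-- the doubled weight of a set of slots, and some single branches -/
theorem wt_pairs (F : FxG G c j L) {A P : Finset (V × V)} {B LQ : Finset V}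
    (hA : ∀ p ∈ A, GSG G c L H p.1 p.2 ∧ p ∈ P)
    (hB : ∀ t ∈ B, (∃ u v a b t' q q' k k', Khb G c u v a b t t' q q' k k' ∧ (u, a) ∈ P) ∨
      t ∈ LQ) :
    2 * A.card + B.card ≤ 2 * P.card + LQ.card := by
  classical
  set B2 := B.filter (fun t => t ∈ LQ) with hB2
  set B1 := B.filter (fun t => ¬ t ∈ LQ) with hB1
  have h1 : B2.card + B1.card = B.card := Finset.card_filter_add_card_filter_not _
  have h2 : B2.card ≤ LQ.card :=
    Finset.card_le_card (fun t ht => (Finset.mem_filter.1 ht).2)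
  have hsl : ∀ t, ∃ p : V × V, t ∈ B1 → ∃ v b t' q q' k k',
      Khb G c p.1 v p.2 b t t' q q' k k' ∧ p ∈ P := by
    intro t
    by_cases ht : t ∈ B1
    · obtain ⟨k1, k2⟩ := Finset.mem_filter.1 ht
      obtain ⟨u, v, a, b, t', q, q', k, k', hK, hP⟩ := (hB t k1).resolve_right k2
      exact ⟨(u, a), fun _ => ⟨v, b, t', q, q', k, k', hK, hP⟩⟩
    · exact ⟨(t, t), fun h => absurd h ht⟩
  choose σ hσ using hsl
  have h3 : B1.card ≤ 2 * (B1.image σ).card := by
    refine Finset.card_le_mul_card_image B1 2 ?_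
    intro p hp
    obtain ⟨t0, ht0, he0⟩ := Finset.mem_image.1 hp
    obtain ⟨v, b, t', q, q', k, k', hK, hP⟩ := hσ t0 ht0
    rw [he0] at hK
    have hsub : B1.filter (fun t => σ t = p) ⊆ {t0, t'} := by
      intro t ht
      obtain ⟨k1, k2⟩ := Finset.mem_filter.1 ht
      obtain ⟨v1, b1, t1, q1, q1', l1, l1', hK1, hP1⟩ := hσ t k1
      rw [k2] at hK1
      have e : G.Adj p.2 t := (hK1.ha.n3.nb t).2 (by simp)
      rw [Finset.mem_insert, Finset.mem_singleton]
      rcases (hK.ha.n3.nb t).1 e with h4 | h4 | h4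
      · exact absurd h4 hK1.ha.n3.xy.symm
      · exact Or.inl h4
      · exact Or.inr h4
    exact (Finset.card_le_card hsub).trans Finset.card_le_two
  have h4 : Disjoint A (B1.image σ) := by
    rw [Finset.disjoint_left]
    intro p hp hp'
    obtain ⟨t0, ht0, he0⟩ := Finset.mem_image.1 hp'
    obtain ⟨v, b, t', q, q', k, k', hK, hP⟩ := hσ t0 ht0
    rw [he0] at hK
    exact khb_not_gsg F hK (hA p hp).1
  have h5 : A ∪ B1.image σ ⊆ P := by
    intro p hp
    rcases Finset.mem_union.1 hp with h | h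
    · exact (hA p h).2
    · obtain ⟨t0, ht0, he0⟩ := Finset.mem_image.1 h
      obtain ⟨v, b, t', q, q', k, k', hK, hP⟩ := hσ t0 ht0
      rw [he0] at hP
      exact hP
  have h6 := Finset.card_le_card h5
  rw [Finset.card_union_of_disjoint h4] at h6
  omega

/-- a branch which is lost -/
theorem gb_lost {t : V} (h : GB G c H t) (h' : ¬ GB G c H' t) :
    ∃ u v a b t' q q' k k', Khb G c u v a b t t' q q' k k' ∧ LS G c H u a ∧ Clr G H k ∧
      (¬ Clr G H' u ∨ ¬ Clr G H' a ∨ ¬ Clr G H' k) := by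
  obtain ⟨u, v, a, b, t', q, q', k, k', hK, hl, hk⟩ := h
  refine ⟨u, v, a, b, t', q, q', k, k', hK, hl, hk, ?_⟩
  by_contra hn
  push Not at hn
  exact h' ⟨u, v, a, b, t', q, q', k, k', hK, ⟨hl.1, hl.2.1, hl.2.2.1, hn.1, hn.2.1⟩, hn.2.2⟩

/-- loss bounds from explicit lists: `P` slots (weight 2 each, of any kind), `LQ` single branches
(weight 1 each), `LV` live free vertices -/
theorem loss_of (F : FxG G c j L) {P : Finset (V × V)} {LQ LV : Finset V} {m n : ℕ}
    (hP : ∀ f x, GSG G c L H f x → ¬ GSG G c L H' f x → (f, x) ∈ P)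
    (hQ : ∀ u v a b t t' q q' k k', Khb G c u v a b t t' q q' k k' → LS G c H u a →
      Clr G H k → (¬ Clr G H' u ∨ ¬ Clr G H' a ∨ ¬ Clr G H' k) → (u, a) ∈ P ∨ t ∈ LQ)
    (hV : ∀ f, Live G c H f → ¬ Live G c H' f → f ∈ LV)
    (hm : 2 * P.card + LQ.card ≤ m) (hn : LV.card ≤ n) : LossG G c L H H' m n := by
  classical
  constructor
  · refine (wt_pairs (P := P) (LQ := LQ) (H := H) F ?_ ?_).trans hm
    · intro p hp
      rw [Finset.mem_sdiff, mem_goodG, mem_goodG] at hp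
      exact ⟨hp.1, hP p.1 p.2 hp.1 hp.2⟩
    · intro t ht
      rw [Finset.mem_sdiff, mem_goodB, mem_goodB] at ht
      obtain ⟨u, v, a, b, t', q, q', k, k', hK, hl, hk, h⟩ := gb_lost ht.1 ht.2
      rcases hQ u v a b t t' q q' k k' hK hl hk h with h1 | h1
      · exact Or.inl ⟨u, v, a, b, t', q, q', k, k', hK, h1⟩
      · exact Or.inr h1
  · refine (Finset.card_le_card ?_).trans hn
    intro f hf
    rw [Finset.mem_sdiff, mem_liv, mem_liv] at hf
    exact hV f hf.1 hf.2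

end Pool.Agent.Helper92.MC
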