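import Pool.Agent.Helper33.MC.Bas

/-!
MP_4042d8_co, section D: lemmas for Case 2.
-/

set_option autoImplicit false
set_option linter.unusedSectionVars false
set_option linter.unusedSimpArgs false
set_option linter.unusedVariables false

namespace Pool.Agent.Helper92.MC

open Pool.Agent.Helper27.MC Pool.Agent.Helper51.MC Pool.Agent.Helper88.MC Pool.Agent.Helper64.MC
open Pool.Agent.Helper91.MC Pool.Agent.Helper33.MC

variable {V : Type} [Fintype V] [DecidableEq V] {G : SimpleGraph V} [DecidableRel G.Adj]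
  {c : V → Bool} {H : Finset V}

theorem nclr {K : Finset V} {v : V} (h : Clr G H v) (h' : ¬ Clr G (H ∪ K) v) :
    ∃ k ∈ K, v = k ∨ G.Adj v k := by
  by_contra hn
  push Not at hn
  apply h'
  refine ⟨?_, ?_⟩
  · intro h1
    rcases Finset.mem_union.1 h1 with h2 | h2
    · exact h.1 h2
    · exact (hn v h2).1 rfl
  · intro w hw h1
    rcases Finset.mem_union.1 h1 with h2 | h2
    · exact h.2 w hw h2
    · exact (hn w h2).2 hw

theorem aa_no {x y : V} (hx : tA G c x) (hy : c y = true) : ¬ G.Adj x y :=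
  fun h => nomate hx.2 y ⟨h, by rw [hy, hx.1]⟩

theorem bb_no {x y : V} (hx : tB G c x) (hy : c y = false) : ¬ G.Adj x y :=
  fun h => nomate hx.2 y ⟨h, by rw [hy, hx.1]⟩

theorem ne_tf {x y : V} (hx : c x = true) (hy : c y = false) : x ≠ y := by
  rintro rfl
  rw [hx] at hy
  cases hy

theorem B_not_S {x y : V} (hx : tB G c x) (hy : tS G c y) : x ≠ y := by
  rintro rfl
  have h1 := hx.2
  have h2 := hy.2
  omega

section facts

variable (F : Fx G c)
include F

/-- the slots of a free vertex -/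
theorem own_slots (v : V) : ∃ L : Finset (V × V), L.card ≤ 2 ∧
    ∀ z, LS G c H v z → (v, z) ∈ L := by
  classical
  by_cases h : v ∈ Fr G c
  · obtain ⟨m, x, y, nb, cm, cx, cy, hxy, hmx, hmy⟩ := s_data F.reg (mem_Fr.1 h).1
    refine ⟨{(v, x), (v, y)}, Finset.card_le_two, fun z hz => ?_⟩
    rcases (nb z).1 hz.2.2.1 with h1 | h1 | h1
    · have h2 := hz.2.1.1
      rw [h1, cm] at h2
      cases h2
    · rw [h1]; simp
    · rw [h1]; simp
  · exact ⟨∅, by simp, fun z hz => (h hz.1).elim⟩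

/-- the slots of the mate of the second `S`-neighbour of `b` -/
theorem mate_slots {u b : V} (hu : u ∈ Fr G c) (hub : G.Adj u b) (tb : tA G c b) :
    ∃ L : Finset (V × V), L.card ≤ 2 ∧
      ∀ f z m, LS G c H f z → Rm G c f m → G.Adj b m → m ≠ u → (f, z) ∈ L := by
  classical
  by_cases h : ∃ f z m, LS G c H f z ∧ Rm G c f m ∧ G.Adj b m ∧ m ≠ u
  · obtain ⟨f, z, m, h1, h2, h3, h4⟩ := h
    obtain ⟨L, hL, hL'⟩ := own_slots F (H := H) f
    refine ⟨L, hL, fun f' z' m' k1 k2 k3 k4 => ?_⟩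
    have hS : ∀ f z m, LS G c H f z → Rm G c f m → tS G c m := fun f z m k1 k2 =>
      ⟨by rw [k2.2]; exact (fr_tS F k1.1).1, mu_of_rm F.mu1 k2.symm⟩
    have e : m = m' := by
      rcases F.f2 b u m m' tb (fr_tS F hu) (hS f z m h1 h2) (hS f' z' m' k1 k2) hub.symm h3 k3
        with k | k | k
      · exact (h4 k.symm).elim
      · exact (k4 k.symm).elim
      · exact k
    subst e
    have e : f' = f := rm_uniq (F.mu1 m) k2.symm h2.symm
    subst e
    exact hL' z' k1
  · push Not at h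
    exact ⟨∅, by simp, fun f z m h1 h2 h3 h4 => (h4 (h f z m h1 h2 h3)).elim⟩

/-- a slot vertex whose other slot vertex is not adjacent to a free vertex -/
theorem only_u {u v a b f : V} (hs : Sv G c u v a b) (hu : u ∈ Fr G c)
    (ha : ∀ g, g ∈ Fr G c → G.Adj a g → g = u) (tb : tA G c b) (hf : f ∈ Fr G c)
    (h : G.Adj b f) : f = u := by
  by_contra hne
  obtain ⟨v2, w1, w2, hq⟩ := sqr_of F (sv_swap hs) hu hf (fun e => hne e.symm) h tb
  exact hne (ha f hf ((hq.h2.n3.nb a).2 (by tauto)).symm)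

end facts

end Pool.Agent.Helper92.MC
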