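import Pool.Agent.Helper92.MC.GCnt
import Pool.Agent.Helper92.MC.DC2a
import Pool.Agent.Helper33.MC.GBas
import Pool.Agent.Helper9.MC.GW

/-!
MP_4042d8_co, section D, part II: Case 2 (row G_C2).
-/

set_option autoImplicit false
set_option linter.unusedSectionVars false
set_option linter.unusedSimpArgs false
set_option linter.unusedVariables false

namespace Pool.Agent.Helper92.MC

open Pool.Agent.Helper27.MC hiding Fr T1 ter
open Pool.Agent.Helper51.MC Pool.Agent.Helper88.MC Pool.Agent.Helper64.MC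
open Pool.Agent.Helper91.MC Pool.Agent.Helper33.MC
open Pool.Agent.Helper79.MC (Sqg)
open Pool.Agent.Helper91.MC.GK (Khb)
open Pool.Agent.Helper96.MC (Td Apx Lx Exm)

variable {V : Type} [Fintype V] [DecidableEq V] {G : SimpleGraph V} [DecidableRel G.Adj]
  {c : V → Bool} {j : ℕ} {L : V → V → Prop} {H H' : Finset V}

/-- the slots of a vertex -/
theorem own2 (hG : G.IsRegularOfDegree 3) (H : Finset V) (v : V) :
    ∃ S : Finset (V × V), S.card ≤ 2 ∧ ∀ z, LS G c H v z → (v, z) ∈ S := by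
  classical
  by_cases h : v ∈ Fr G c
  · obtain ⟨m, x, y, nb, cm, cx, cy, hxy, hmx, hmy⟩ := s_data hG (mem_Fr.1 h).1
    refine ⟨{(v, x), (v, y)}, Finset.card_le_two, fun z hz => ?_⟩
    rcases (nb z).1 hz.2.2.1 with h1 | h1 | h1
    · have h2 := hz.2.1.1
      rw [h1, cm] at h2
      cases h2
    · rw [h1]; simp
    · rw [h1]; simp
  · exact ⟨∅, by simp, fun z hz => (h hz.1).elim⟩

theorem fr_sg (F : FxG G c j L) {f x : V} (hf : f ∈ Fr G c) (h : G.Adj f x) (hx : tA G c x) :
    ∃ v y, Sv G c f v x y ∧ tA G c y := by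
  obtain ⟨v, y, hs⟩ := sv_ex F.reg (mem_Fr.1 hf).1 h hx.1
  exact ⟨v, y, hs, ((sv_Fr F.mu1 hs).1 hf).2⟩

theorem t1_sg (F : FxG G c j L) {t x : V} (hf : t ∈ T1 G c) (h : G.Adj t x) (hx : tA G c x) :
    ∃ r q, Sv G c t r x q ∧ tQ G c q := by
  obtain ⟨r, q, hs⟩ := sv_ex F.reg (mem_T1.1 hf).1 h hx.1
  rcases (sv_T1 F.mu1 hs).1 hf with h1 | h1
  · exact ⟨r, q, hs, h1.2⟩
  · exact (tA_not_tQ hx h1.1).elim

/-- the `A`-neighbour of a vertex of type `T1` is unique -/
theorem t1_A (F : FxG G c j L) {t x y : V} (hf : t ∈ T1 G c) (hx : G.Adj t x) (tx : tA G c x)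
    (hy : G.Adj t y) (ty : tA G c y) : y = x := by
  obtain ⟨r, q, hs, hq⟩ := t1_sg F hf hx tx
  rcases (hs.n3.nb y).1 hy with h | h | h
  · have := ty.1
    rw [h, hs.cm] at this
    cases this
  · exact h
  · rw [h] at ty
    exact (tA_not_tQ ty hq).elim

/-- the free neighbours of a hub of a square -/
theorem sqg_only {s1 s2 a b v1 v2 za zb f : V} (h : Sqg G c s1 s2 a b v1 v2 za zb)
    (hf : f ∈ Fr G c) (ha : G.Adj a f) : f = s1 ∨ f = s2 := by
  rcases (h.ha.n3.nb f).1 ha with h1 | h1 | h1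
  · exact Or.inl h1
  · exact Or.inr h1
  · exfalso
    subst h1
    rcases h.ka with h2 | ⟨h2, h3⟩ | ⟨h2, h3⟩
    · have h4 := (mem_Fr.1 hf).1.2
      have h5 := h2.2
      omega
    · rw [← h2] at h3
      exact not_fr_t1 h3 hf
    · rw [← h2] at h3
      exact not_fr_t1 h3 hf

theorem sqg_fr (F : FxG G c j L) {s1 s2 a b v1 v2 za zb : V}
    (h : Sqg G c s1 s2 a b v1 v2 za zb) : s1 ∈ Fr G c ∧ s2 ∈ Fr G c :=
  ⟨(sv_Fr F.mu1 h.h1).2 ⟨h.ta, h.tb⟩, (sv_Fr F.mu1 h.h2).2 ⟨h.ta, h.tb⟩⟩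

/-- an `N''`-slot is an `N`-slot -/
theorem q0_pn (F : FxG G c j L) (h : Q0G G c H) : PN G c H := by
  obtain ⟨u, v, a, w, hl, huv, hv, hav, haw, hw⟩ := h
  refine ⟨u, a, hl, ?_⟩
  intro z hz hne
  obtain ⟨z', hn⟩ := Pool.Agent.Helper96.MC.n3_of2 F.reg hl.2.2.1.symm hav
    (huv.ne)
  have hwu : w ≠ u := by
    rintro rfl
    have h4 := (mem_Fr.1 hl.1).1.2
    have h5 := hw.2
    omega
  have hwv : w ≠ v := by
    rintro rfl
    have h4 := (mem_Fr.1 hv.1).1.2
    have h5 := hw.2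
    omega
  have hz' : z' = w := by
    rcases (hn.nb w).1 haw with h1 | h1 | h1
    · exact (hwu h1).elim
    · exact (hwv h1).elim
    · exact h1.symm
  subst hz'
  rcases (hn.nb z).1 hz with h1 | h1 | h1
  · exact (hne h1).elim
  · subst h1
    intro y hy
    exact Or.inl (rm_uniq (F.mu1 _) hy huv.symm)
  · subst h1
    intro y hy
    exact (nomate hw.2 y hy).elim

/-- two branches with the same `k` are equal -/
theorem branch_k (F : FxG G c j L) {u v a b t t' q q' k k' u1 v1 a1 b1 t1 t1' q1 q1' k1' : V}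
    (K : Khb G c u v a b t t' q q' k k') (K1 : Khb G c u1 v1 a1 b1 t1 t1' q1 q1' k k1') :
    t1 = t := by
  have hm := F.mu1
  have e : q1 = q := rm_uniq (hm k) K1.q1.symm K.q1.symm
  subst e
  by_contra hne
  have h1 := sv_tS hm K.h1
  have h2 := sv_tS hm K1.h1
  have a1 : G.Adj q1 t := ((K.h1.n3.nb q1).2 (by simp)).symm
  have a2 : G.Adj q1 t1 := ((K1.h1.n3.nb q1).2 (by simp)).symm
  have hq : tQ G c q1 := ⟨K.h1.cb, mu_of_rm hm K.q1⟩
  have hr := F.f1 q1 t t1 hq h1 h2 a1 a2 (fun e => hne e.symm)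
  have e1 : t1 = t' := rm_uniq (hm t) hr (sv_rm K.h1)
  subst e1
  rcases (K.h2.n3.nb q1).1 a2.symm with h | h | h
  · exact ne_tf hq.1 K.h1.cs h
  · rw [h] at hq
    exact tA_not_tQ K.ta hq
  · exact (F.g3 _ _ _ _ _ _ _ _ _ _ K).1 h

/-- the bare neighbour `p` of `a` in Case 2 -/
theorem wpart2 (GW : ST_GW) (F : FxG G c j L) (hPN : ¬ PN G c H) {u v a t r r' x y v' zx zy p : V}
    (hl : LS G c H u a) (huv : Rm G c u v) (hap : G.Adj a p) (hpu : p ≠ u)
    (hb : Bare G c H u p) (hat : G.Adj a t) (htu : t ≠ u) (ht : t ∈ T1 G c) (htr : Rm G c t r)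
    (hru : r ≠ u) (hQ : Sqg G c r r' x y t v' zx zy) (hra : ¬ G.Adj a r) :
    ∃ (LA : Finset (V × V)) (LQ : Finset V), 2 * LA.card + LQ.card ≤ 4 ∧
      (∀ f x, LS G c H f x → G.Adj x p → x ≠ a → f ≠ u → f ≠ v → f ≠ r → f ≠ r' → (f, x) ∈ LA) ∧
      (∀ t f v' x y t' q q' k k', Khb G c f v' x y t t' q q' k k' → LS G c H f x →
          Clr G H k → G.Adj k p → f ≠ u → f ≠ v → t ∈ LQ) := by
  classical
  have hm := F.mu1
  have h0 : ¬ Q0G G c H := fun h => hPN (q0_pn F h)
  obtain ⟨LA, LQ, c1, c2, k1, k2, k3⟩ := GW V G c j L H F u v a p hl huv hap hpu hb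
  rcases k3 h0 with h4 | ⟨hB, s1, s2, n, n', v1, v2, zb, v'', x2, y2, t2, t2', q2, q2', k, k', hS,
    l1, l2, nna, K, l3, ck, hkp⟩
  · exact ⟨LA, LQ, h4, fun f x a1 a2 a3 a4 a5 _ _ => k1 f x a1 a2 a3 a4 a5, k2⟩
  -- the exceptional situation
  have hk : tQ G c k := ⟨by rw [K.q1.2, K.h1.cb], mu_of_rm hm K.q1.symm⟩
  have ank : n ≠ k := by
    rintro rfl
    exact tA_not_tQ hS.ta hk
  have aak : a ≠ k := by
    rintro rfl
    exact tA_not_tQ hl.2.1 hk
  have hnp : G.Adj n p := (hS.ha.n3.nb p).2 (by simp)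
  obtain ⟨z, hN⟩ := Pool.Agent.Helper96.MC.n3_of2 F.reg hap.symm hnp.symm nna.symm
  have hz : z = k := by
    rcases (hN.nb k).1 hkp.symm with h1 | h1 | h1
    · exact (aak h1.symm).elim
    · exact (ank h1.symm).elim
    · exact h1.symm
  subst hz
  have cov : ∀ f x, LS G c H f x → G.Adj x p → x ≠ a → x = n ∧ (f = s1 ∨ f = s2) := by
    intro f x a1 a2 a3
    rcases (hN.nb x).1 a2.symm with h1 | h1 | h1
    · exact (a3 h1).elim
    · subst h1
      exact ⟨rfl, sqg_only hS a1.1 a1.2.2.1.symm⟩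
    · have := a1.2.1
      rw [h1] at this
      exact (tA_not_tQ this hk).elim
  have covQ : ∀ t f v' x y t' q q' k1 k1', Khb G c f v' x y t t' q q' k1 k1' → LS G c H f x →
      Clr G H k1 → G.Adj k1 p → f ≠ u → f ≠ v → t ∈ ({t2} : Finset V) := by
    intro t f v' x y t' q q' k1 k1' K1 a1 a2 a3 _ _
    have hk1 : tQ G c k1 := ⟨by rw [K1.q1.2, K1.h1.cb], mu_of_rm hm K1.q1.symm⟩
    rw [Finset.mem_singleton]
    rcases (hN.nb k1).1 a3.symm with h1 | h1 | h1
    · rw [h1] at hk1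
      exact (tA_not_tQ hl.2.1 hk1).elim
    · rw [h1] at hk1
      exact (tA_not_tQ hS.ta hk1).elim
    · subst h1
      exact branch_k F K K1
  have uS := (mem_Fr.1 hl.1).1
  have tS' := (mem_T1.1 ht).1
  have pu : u ≠ p := fun e => hpu e.symm
  have pt : t ≠ p := by
    rintro rfl
    have h1 := tS'.2
    have h2 := hB.2
    omega
  have key : u = v1 ∨ u = v2 ∨ t = v1 ∨ t = v2 := by
    by_contra hn
    push Not at hn
    obtain ⟨e1, e2, e3, e4⟩ := hn
    have := F.r4 s1 s2 n n' v1 v2 p zb a u t hS hl.2.1 nna.symm hap uS tS' hl.2.2.1.symm hat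
      htu.symm e1 e2 e3 e4 pu pt
    exact hru (rm_uniq (hm t) htr this.symm)
  have fin3 : ∀ s s' : V, (∀ f x, LS G c H f x → G.Adj x p → x ≠ a → x = n ∧ (f = s ∨ f = s')) →
      s = v → ∃ (LA : Finset (V × V)) (LQ : Finset V), 2 * LA.card + LQ.card ≤ 4 ∧
      (∀ f x, LS G c H f x → G.Adj x p → x ≠ a → f ≠ u → f ≠ v → f ≠ r → f ≠ r' → (f, x) ∈ LA) ∧
      (∀ t f v' x y t' q q' k k', Khb G c f v' x y t t' q q' k k' → LS G c H f x →
          Clr G H k → G.Adj k p → f ≠ u → f ≠ v → t ∈ LQ) := by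
    intro s s' hc hs
    refine ⟨{(s', n)}, {t2}, by simp, ?_, covQ⟩
    intro f x a1 a2 a3 _ a5 _ _
    obtain ⟨e1, e2⟩ := hc f x a1 a2 a3
    rw [Finset.mem_singleton, e1]
    rcases e2 with e2 | e2
    · exact (a5 (e2.trans hs)).elim
    · rw [e2]
  have fin4 : ∀ s s' : V, (∀ f x, LS G c H f x → G.Adj x p → x ≠ a → x = n ∧ (f = s ∨ f = s')) →
      s = r → G.Adj n s → G.Adj n s' → s' ∈ Fr G c → s' ≠ s →
      ∃ (LA : Finset (V × V)) (LQ : Finset V), 2 * LA.card + LQ.card ≤ 4 ∧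
      (∀ f x, LS G c H f x → G.Adj x p → x ≠ a → f ≠ u → f ≠ v → f ≠ r → f ≠ r' → (f, x) ∈ LA) ∧
      (∀ t f v' x y t' q q' k k', Khb G c f v' x y t t' q q' k k' → LS G c H f x →
          Clr G H k → G.Adj k p → f ≠ u → f ≠ v → t ∈ LQ) := by
    intro s s' hc hs hns hns' hs'F hne
    subst hs
    have e : s' = r' := by
      rcases (hQ.h1.n3.nb n).1 hns.symm with h1 | h1 | h1
      · exact (ne_tf hS.ta.1 hQ.h1.cm h1).elim
      · rw [h1] at hns'
        rcases sqg_only hQ hs'F hns' with h2 | h2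
        · exact (hne h2).elim
        · exact h2
      · rw [h1] at hns'
        rcases sqg_only hQ.hub hs'F hns' with h2 | h2
        · exact (hne h2).elim
        · exact h2
    subst e
    refine ⟨∅, {t2}, by simp, ?_, covQ⟩
    intro f x a1 a2 a3 _ _ a6 a7
    obtain ⟨e1, e2⟩ := hc f x a1 a2 a3
    rcases e2 with e2 | e2
    · exact (a6 e2).elim
    · exact (a7 e2).elim
  have cov' : ∀ f x, LS G c H f x → G.Adj x p → x ≠ a → x = n ∧ (f = s2 ∨ f = s1) := by
    intro f x a1 a2 a3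
    obtain ⟨e1, e2⟩ := cov f x a1 a2 a3
    exact ⟨e1, e2.symm⟩
  obtain ⟨fs1, fs2⟩ := sqg_fr F hS
  have n1 : G.Adj n s1 := (hS.ha.n3.nb s1).2 (by simp)
  have n2 : G.Adj n s2 := (hS.ha.n3.nb s2).2 (by simp)
  rcases key with e | e | e | e
  · exact fin3 s1 s2 cov (rm_uniq (hm u) (by rw [e]; exact (sv_rm hS.h1).symm) huv)
  · exact fin3 s2 s1 cov' (rm_uniq (hm u) (by rw [e]; exact (sv_rm hS.h2).symm) huv)
  · exact fin4 s1 s2 cov (rm_uniq (hm t) (by rw [e]; exact (sv_rm hS.h1).symm) htr) n1 n2 fs2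
      hS.ha.n3.xy.symm
  · exact fin4 s2 s1 cov' (rm_uniq (hm t) (by rw [e]; exact (sv_rm hS.h2).symm) htr) n2 n1 fs1
      hS.ha.n3.xy

/-- a source is not the mate of a free vertex -/
theorem src_ne (F : FxG G c j L) {v y m : V} (h : L v y) (hm : Rm G c y m) : m ∉ Fr G c := by
  intro hf
  obtain ⟨hy, w, p, y', n, n', d, T, _⟩ := F.lx.src v y h
  have hr : Rm G c y y' := ⟨(T.nx.nb y').2 (by simp), by rw [T.cx', T.cx]⟩
  have e : m = y' := rm_uniq (F.mu1 y) hm hr
  subst e
  obtain ⟨v0, b0, S0⟩ := sv_ex F.reg (mem_Fr.1 hf).1 ((T.nx'.nb w).2 (by simp)) T.cq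
  have h1 := ((sv_Fr F.mu1 S0).1 hf).1
  have h2 : Rm G c w p := ⟨(T.nq.nb p).2 (by simp), by rw [T.cp, T.cq]⟩
  exact nomate h1.2 p h2

/-- row G_C2 -/
theorem gc2_of (GGL : ST_GGL) (GSP : ST_GSP) (GW : ST_GW) : ST_GC2 := by
  intro V _ _ G _ c j L H F hI hPN hQ2
  classical
  obtain ⟨u, a, t, r, r', x, y, v', zx, zy, hM, hQ, hr, hr', hv'⟩ := hQ2
  obtain ⟨hl, hat, htu, ht, htr, hru, hrH, hbare⟩ := hM
  have hm := F.mu1
  have hu := hl.1
  have ta := hl.2.1
  have hua := hl.2.2.1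
  have cu := hl.2.2.2.1
  have ca := hl.2.2.2.2
  obtain ⟨v, b, Su, tb⟩ := fr_sg F hu hua ta
  have huS := (mem_Fr.1 hu).1
  have htS := (mem_T1.1 ht).1
  have hrF := hr.1
  have hrF' := hr'.1
  have hrS := (mem_Fr.1 hrF).1
  have htF : t ∉ Fr G c := not_fr_t1 ht
  obtain ⟨p, A⟩ : ∃ p, Av G c a u p t := by
    obtain ⟨y, z, A⟩ := av_ex F.reg ta hua.symm
    rcases (A.n3.nb t).1 hat with h | h | h
    · exact (htu h).elim
    · subst h; exact ⟨z, av_swap' A⟩
    · subst h; exact ⟨y, A⟩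
  have hap : G.Adj a p := (A.n3.nb p).2 (by tauto)
  have hpu : p ≠ u := A.n3.xy.symm
  have hp : Bare G c H u p := hbare p hap hpu A.n3.yz
  have cp : c p = false := A.cy
  obtain ⟨r0, q, St, hq⟩ := t1_sg F ht hat.symm ta
  have e0 : r0 = r := rm_uniq (hm t) (sv_rm St) htr
  subst e0
  have hub : G.Adj u b := (Su.n3.nb b).2 (by tauto)
  have huv : Rm G c u v := sv_rm Su
  have hra : ¬ G.Adj a r0 := by
    intro h
    rcases (A.n3.nb r0).1 h with h1 | h1 | h1
    · exact hru h1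
    · subst h1
      rcases hp t htr.symm with h2 | h2
      · exact htu h2
      · exact ca.2 t hat h2
    · exact htr.ne h1.symm
  have hxr : G.Adj x r0 := (hQ.ha.n3.nb r0).2 (by tauto)
  have hyr : G.Adj y r0 := (hQ.hb.n3.nb r0).2 (by tauto)
  have hxr' : G.Adj x r' := (hQ.ha.n3.nb r').2 (by tauto)
  have hyr' : G.Adj y r' := (hQ.hb.n3.nb r').2 (by tauto)
  have hax : a ≠ x := by rintro rfl; exact hra hxr
  have hay : a ≠ y := by rintro rfl; exact hra hyr
  have hvr : v ≠ r0 := by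
    rintro rfl
    exact htu (rm_uniq (hm _) htr.symm huv.symm)
  have hrt : r0 ≠ t := htr.ne.symm
  -- free neighbours of the hubs
  have haf0 : ∀ g, g ∈ Fr G c → G.Adj a g → g ≠ u → g = p := by
    intro g hg h hne
    rcases (A.n3.nb g).1 h with h1 | h1 | h1
    · exact (hne h1).elim
    · exact h1
    · rw [h1] at hg
      exact (htF hg).elim
  have haf : ∀ g, g ∈ Fr G c → Clr G H g → G.Adj a g → g = u ∨ g = v := by
    intro g hg hc h
    by_cases hne : g = u
    · exact Or.inl hne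
    · right
      have e := haf0 g hg h hne
      subst e
      obtain ⟨m, hgm⟩ := exists_mate (mem_Fr.1 hg).1.2
      rcases hp m hgm with h2 | h2
      · subst h2
        exact rm_uniq (hm _) hgm.symm huv
      · exact (hc.2 m hgm.1 h2).elim
  have hbr : ¬ G.Adj b r0 := by
    intro h
    have n1 : ¬ Rm G c u r0 := fun h1 => hvr (rm_uniq (hm u) huv h1)
    obtain ⟨b', w1, w2, z1, z2, hS⟩ := F.g1 b u r0 tb hu hrF (fun e => hru e.symm) n1 hub.symm h
    have e : b' = a := by
      rcases (Su.n3.nb b').1 ((hS.h1.n3.nb b').2 (by simp)) with h3 | h3 | h3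
      · exact (ne_tf hS.tb.1 Su.cm h3).elim
      · exact h3
      · exact (hS.h1.n3.yz h3.symm).elim
    subst e
    exact hra ((hS.h2.n3.nb b').2 (by simp)).symm
  have hbx : b ≠ x := by rintro rfl; exact hbr hxr
  have hby : b ≠ y := by rintro rfl; exact hbr hyr
  have hbf : ∀ g, g ∈ Fr G c → Clr G H g → G.Adj b g → g = u ∨ g = v := by
    intro g hg hc h
    by_cases hne : g = u
    · exact Or.inl hne
    by_cases hnv : g = v
    · exact Or.inr hnv
    have n1 : ¬ Rm G c u g := fun h1 => hnv (rm_uniq (hm u) h1 huv)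
    obtain ⟨b', w1, w2, z1, z2, hS⟩ := F.g1 b u g tb hu hg (fun e => hne e.symm) n1 hub.symm h
    have e : b' = a := by
      rcases (Su.n3.nb b').1 ((hS.h1.n3.nb b').2 (by simp)) with h3 | h3 | h3
      · exact (ne_tf hS.tb.1 Su.cm h3).elim
      · exact h3
      · exact (hS.h1.n3.yz h3.symm).elim
    subst e
    exact haf g hg hc ((hS.h2.n3.nb b').2 (by simp)).symm
  have hpr : p ≠ r0 := by
    rintro rfl
    exact hra hap
  -- the operations
  set H1 := H ∪ {r0, x, y} with hH1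
  set H2 := H1 ∪ {u, b, p, a, t} with hH2
  have o1 : OpU G c H H1 := ⟨r0, t, x, y, hQ.h1, hQ.ta, hQ.tb, hr.2, rfl⟩
  have cu1 : Clr G H1 u := by
    by_contra hn
    obtain ⟨k, hk, h⟩ := nclr cu hn
    simp only [Finset.mem_insert, Finset.mem_singleton] at hk
    rcases hk with rfl | rfl | rfl
    · rcases h with h | h
      · exact hru h.symm
      · rcases (Su.n3.nb k).1 h with h1 | h1 | h1
        · exact hvr h1.symm
        · exact ne_tf ta.1 hQ.h1.cs h1.symm
        · exact ne_tf tb.1 hQ.h1.cs h1.symm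
    · rcases h with h | h
      · exact ne_tf hQ.ta.1 huS.1 h.symm
      · rcases (Su.n3.nb k).1 h with h1 | h1 | h1
        · exact ne_tf hQ.ta.1 Su.cm h1
        · exact hax h1.symm
        · exact hbx h1.symm
    · rcases h with h | h
      · exact ne_tf hQ.tb.1 huS.1 h.symm
      · rcases (Su.n3.nb k).1 h with h1 | h1 | h1
        · exact ne_tf hQ.tb.1 Su.cm h1
        · exact hay h1.symm
        · exact hby h1.symm
  have ca1 : Clr G H1 a := by
    by_contra hn
    obtain ⟨k, hk, h⟩ := nclr ca hn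
    simp only [Finset.mem_insert, Finset.mem_singleton] at hk
    rcases hk with rfl | rfl | rfl
    · rcases h with h | h
      · exact ne_tf ta.1 hQ.h1.cs h
      · exact hra h
    · rcases h with h | h
      · exact hax h
      · exact aa_no ta hQ.ta.1 h
    · rcases h with h | h
      · exact hay h
      · exact aa_no ta hQ.tb.1 h
  have o2 : OpN G c H1 H2 := by
    refine ⟨u, v, a, b, p, t, Su, A, ta, tb, cu1, ca1, ?_, ?_, rfl⟩
    · intro z hz
      rcases hp z hz with h | h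
      · exact Or.inl h
      · exact Or.inr (by rw [hH1]; exact Finset.mem_union_left _ h)
    · intro z hz
      right
      rw [rm_uniq (hm t) hz htr, hH1]
      simp
  refine ⟨H1, H2, o1, o2, ?_⟩
  have hHH : H2 = H ∪ {r0, x, y, u, b, p, a, t} := by
    rw [hH2, hH1]
    ext z
    simp only [Finset.mem_union, Finset.mem_insert, Finset.mem_singleton]
    tauto
  have hsub : H ⊆ H2 := by
    rw [hHH]
    exact Finset.subset_union_left
  have m_r : r0 ∈ H2 := by rw [hHH]; simp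
  have m_x : x ∈ H2 := by rw [hHH]; simp
  have m_y : y ∈ H2 := by rw [hHH]; simp
  have m_u : u ∈ H2 := by rw [hHH]; simp
  have m_b : b ∈ H2 := by rw [hHH]; simp
  have ncl : ∀ z, Clr G H z → ¬ Clr G H2 z → ∃ k, (k = r0 ∨ k = x ∨ k = y ∨ k = u ∨ k = b ∨
      k = p ∨ k = a ∨ k = t) ∧ (z = k ∨ G.Adj z k) := by
    intro z h1 h2
    rw [hHH] at h2
    obtain ⟨k, hk, h⟩ := nclr h1 h2
    simp only [Finset.mem_insert, Finset.mem_singleton] at hk
    exact ⟨k, hk, h⟩
  -- false vertices adjacent to the bare vertex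
  have hpp : ∀ z, c z = false → Clr G H z → G.Adj z p → z = u := by
    intro z hz hc h
    rcases hp z ⟨h.symm, by rw [hz, cp]⟩ with h1 | h1
    · exact h1
    · exact (hc.1 h1).elim
  have hp0 : ∀ z, tS G c z → Clr G H z → z = p → z = v := by
    intro z hz hc h
    subst h
    obtain ⟨m, hgm⟩ := exists_mate hz.2
    rcases hp m hgm with h2 | h2
    · subst h2
      exact rm_uniq (hm _) hgm.symm huv
    · exact (hc.2 m hgm.1 h2).elim
  have nfr : ∀ z, z ∈ Fr G c → Clr G H z → ¬ Clr G H2 z → z = r0 ∨ z = r' ∨ z = u ∨ z = v := by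
    intro z hz h1 h2
    have zS := (mem_Fr.1 hz).1
    obtain ⟨k, hk, h⟩ := ncl z h1 h2
    rcases hk with rfl | rfl | rfl | rfl | rfl | rfl | rfl | rfl
    · rcases h with h | h
      · exact Or.inl h
      · rcases (hQ.h1.n3.nb z).1 h.symm with h3 | h3 | h3
        · rw [h3] at hz
          exact (htF hz).elim
        · exact (ne_tf hQ.ta.1 zS.1 h3.symm).elim
        · exact (ne_tf hQ.tb.1 zS.1 h3.symm).elim
    · rcases h with h | h
      · exact (ne_tf hQ.ta.1 zS.1 h.symm).elim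
      · rcases sqg_only hQ hz h.symm with h3 | h3
        · exact Or.inl h3
        · exact Or.inr (Or.inl h3)
    · rcases h with h | h
      · exact (ne_tf hQ.tb.1 zS.1 h.symm).elim
      · rcases sqg_only hQ.hub hz h.symm with h3 | h3
        · exact Or.inl h3
        · exact Or.inr (Or.inl h3)
    · rcases h with h | h
      · exact Or.inr (Or.inr (Or.inl h))
      · rcases (Su.n3.nb z).1 h.symm with h3 | h3 | h3
        · exact Or.inr (Or.inr (Or.inr h3))
        · exact (ne_tf ta.1 zS.1 h3.symm).elim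
        · exact (ne_tf tb.1 zS.1 h3.symm).elim
    · rcases h with h | h
      · exact (ne_tf tb.1 zS.1 h.symm).elim
      · exact Or.inr (Or.inr (hbf z hz h1 h.symm))
    · rcases h with h | h
      · exact Or.inr (Or.inr (Or.inr (hp0 z zS h1 h)))
      · exact Or.inr (Or.inr (Or.inl (hpp z zS.1 h1 h)))
    · rcases h with h | h
      · exact (ne_tf ta.1 zS.1 h.symm).elim
      · exact Or.inr (Or.inr (haf z hz h1 h.symm))
    · rcases h with h | h
      · rw [h] at hz
        exact (htF hz).elim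
      · rcases (St.n3.nb z).1 h.symm with h3 | h3 | h3
        · exact Or.inl h3
        · exact (ne_tf ta.1 zS.1 h3.symm).elim
        · exact (ne_tf hq.1 zS.1 h3.symm).elim
  have zxT : ∀ z, z ∈ T1 G c → G.Adj x z ∨ G.Adj y z → z = t ∨ z = v' := by
    intro z hz h
    have zS := (mem_T1.1 hz).1
    have hzF := not_fr_t1 hz
    rcases h with h | h
    · rcases (hQ.ha.n3.nb z).1 h with h1 | h1 | h1
      · rw [h1] at hzF; exact (hzF hrF).elim
      · rw [h1] at hzF; exact (hzF hrF').elim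
      · rcases hQ.ka with h2 | ⟨h2, _⟩ | ⟨h2, _⟩
        · rw [← h1] at h2; exact (B_not_S h2 zS rfl).elim
        · exact Or.inl (h1.trans h2)
        · exact Or.inr (h1.trans h2)
    · rcases (hQ.hb.n3.nb z).1 h with h1 | h1 | h1
      · rw [h1] at hzF; exact (hzF hrF).elim
      · rw [h1] at hzF; exact (hzF hrF').elim
      · rcases hQ.kb with h2 | ⟨h2, _⟩ | ⟨h2, _⟩
        · rw [← h1] at h2; exact (B_not_S h2 zS rfl).elim
        · exact Or.inl (h1.trans h2)
        · exact Or.inr (h1.trans h2)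
  have nt1 : ∀ z, z ∈ T1 G c → Clr G H z → ¬ Clr G H2 z → z = t ∨ z = v ∨ G.Adj x z ∨
      G.Adj y z ∨ G.Adj b z := by
    intro z hz h1 h2
    have zS := (mem_T1.1 hz).1
    have hzF : z ∉ Fr G c := not_fr_t1 hz
    have hzu : z ≠ u := by rintro rfl; exact hzF hu
    obtain ⟨k, hk, h⟩ := ncl z h1 h2
    rcases hk with rfl | rfl | rfl | rfl | rfl | rfl | rfl | rfl
    · rcases h with h | h
      · rw [h] at hzF
        exact (hzF hrF).elim
      · rcases (hQ.h1.n3.nb z).1 h.symm with h3 | h3 | h3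
        · exact Or.inl h3
        · exact (ne_tf hQ.ta.1 zS.1 h3.symm).elim
        · exact (ne_tf hQ.tb.1 zS.1 h3.symm).elim
    · rcases h with h | h
      · exact (ne_tf hQ.ta.1 zS.1 h.symm).elim
      · exact Or.inr (Or.inr (Or.inl h.symm))
    · rcases h with h | h
      · exact (ne_tf hQ.tb.1 zS.1 h.symm).elim
      · exact Or.inr (Or.inr (Or.inr (Or.inl h.symm)))
    · rcases h with h | h
      · exact (hzu h).elim
      · rcases (Su.n3.nb z).1 h.symm with h3 | h3 | h3
        · exact Or.inr (Or.inl h3)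
        · exact (ne_tf ta.1 zS.1 h3.symm).elim
        · exact (ne_tf tb.1 zS.1 h3.symm).elim
    · rcases h with h | h
      · exact (ne_tf tb.1 zS.1 h.symm).elim
      · exact Or.inr (Or.inr (Or.inr (Or.inr h.symm)))
    · rcases h with h | h
      · exact Or.inr (Or.inl (hp0 z zS h1 h))
      · exact (hzu (hpp z zS.1 h1 h)).elim
    · rcases h with h | h
      · exact (ne_tf ta.1 zS.1 h.symm).elim
      · rcases (A.n3.nb z).1 h.symm with h3 | h3 | h3
        · exact (hzu h3).elim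
        · exact Or.inr (Or.inl (hp0 z zS h1 h3))
        · exact Or.inl h3
    · rcases h with h | h
      · exact Or.inl h
      · rcases (St.n3.nb z).1 h.symm with h3 | h3 | h3
        · rw [h3] at hzF
          exact (hzF hrF).elim
        · exact (ne_tf ta.1 zS.1 h3.symm).elim
        · exact (ne_tf hq.1 zS.1 h3.symm).elim
  have nta : ∀ z, tA G c z → Clr G H z → ¬ Clr G H2 z → z = x ∨ z = y ∨ z = a ∨ z = b ∨
      (G.Adj z p ∧ z ≠ a) := by
    intro z hz h1 h2
    obtain ⟨k, hk, h⟩ := ncl z h1 h2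
    by_cases hza : z = a
    · exact Or.inr (Or.inr (Or.inl hza))
    rcases hk with rfl | rfl | rfl | rfl | rfl | rfl | rfl | rfl
    · rcases h with h | h
      · exact (ne_tf hz.1 hQ.h1.cs h).elim
      · rcases (hQ.h1.n3.nb z).1 h.symm with h3 | h3 | h3
        · exact (ne_tf hz.1 htS.1 h3).elim
        · exact Or.inl h3
        · exact Or.inr (Or.inl h3)
    · rcases h with h | h
      · exact Or.inl h
      · exact (aa_no hz hQ.ta.1 h).elim
    · rcases h with h | h
      · exact Or.inr (Or.inl h)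
      · exact (aa_no hz hQ.tb.1 h).elim
    · rcases h with h | h
      · exact (ne_tf hz.1 huS.1 h).elim
      · rcases (Su.n3.nb z).1 h.symm with h3 | h3 | h3
        · exact (ne_tf hz.1 Su.cm h3).elim
        · exact Or.inr (Or.inr (Or.inl h3))
        · exact Or.inr (Or.inr (Or.inr (Or.inl h3)))
    · rcases h with h | h
      · exact Or.inr (Or.inr (Or.inr (Or.inl h)))
      · exact (aa_no hz tb.1 h).elim
    · rcases h with h | h
      · exact (ne_tf hz.1 cp h).elim
      · exact Or.inr (Or.inr (Or.inr (Or.inr ⟨h, hza⟩)))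
    · rcases h with h | h
      · exact Or.inr (Or.inr (Or.inl h))
      · exact (aa_no hz ta.1 h).elim
    · rcases h with h | h
      · exact (ne_tf hz.1 htS.1 h).elim
      · rcases (St.n3.nb z).1 h.symm with h3 | h3 | h3
        · exact (ne_tf hz.1 hQ.h1.cs h3).elim
        · exact Or.inr (Or.inr (Or.inl h3))
        · rw [h3] at hz
          exact (tA_not_tQ hz hq).elim
  have ntq : ∀ z, tQ G c z → Clr G H z → ¬ Clr G H2 z → z = q ∨ G.Adj z p := by
    intro z hz h1 h2
    obtain ⟨k, hk, h⟩ := ncl z h1 h2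
    have AA : ∀ w, tA G c w → z = w ∨ G.Adj z w → False := by
      intro w hw h
      rcases h with h | h
      · rw [h] at hz; exact tA_not_tQ hw hz
      · exact aa_no hw hz.1 h.symm
    rcases hk with rfl | rfl | rfl | rfl | rfl | rfl | rfl | rfl
    · rcases h with h | h
      · exact (ne_tf hz.1 hQ.h1.cs h).elim
      · rcases (hQ.h1.n3.nb z).1 h.symm with h3 | h3 | h3
        · exact (ne_tf hz.1 htS.1 h3).elim
        · rw [h3] at hz; exact (tA_not_tQ hQ.ta hz).elim
        · rw [h3] at hz; exact (tA_not_tQ hQ.tb hz).elim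
    · exact (AA _ hQ.ta h).elim
    · exact (AA _ hQ.tb h).elim
    · rcases h with h | h
      · exact (ne_tf hz.1 huS.1 h).elim
      · rcases (Su.n3.nb z).1 h.symm with h3 | h3 | h3
        · exact (ne_tf hz.1 Su.cm h3).elim
        · rw [h3] at hz; exact (tA_not_tQ ta hz).elim
        · rw [h3] at hz; exact (tA_not_tQ tb hz).elim
    · exact (AA _ tb h).elim
    · rcases h with h | h
      · exact (ne_tf hz.1 cp h).elim
      · exact Or.inr h
    · exact (AA _ ta h).elim
    · rcases h with h | h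
      · exact (ne_tf hz.1 htS.1 h).elim
      · rcases (St.n3.nb z).1 h.symm with h3 | h3 | h3
        · exact (ne_tf hz.1 hQ.h1.cs h3).elim
        · rw [h3] at hz; exact (tA_not_tQ ta hz).elim
        · exact Or.inl h3
  -- the lists
  obtain ⟨LA, LQ, c1, k1, k1'⟩ := wpart2 GW F hPN hl huv hap hpu hp hat htu ht htr hru hQ hra
  obtain ⟨L2, c2, k2⟩ := own2 (c := c) F.reg H v
  obtain ⟨L3, c3, k3⟩ : ∃ L3 : Finset (V × V), L3.card ≤ 2 ∧
      ∀ f z, LS G c H f z → f ≠ u → SpG G c L H b f → (f, z) ∈ L3 := by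
    by_cases h : ∃ f, f ≠ u ∧ SpG G c L H b f
    · obtain ⟨f0, h1, h2⟩ := h
      obtain ⟨L3, h3, h4⟩ := own2 (c := c) F.reg H f0
      refine ⟨L3, h3, fun f z k1 k2 k3 => ?_⟩
      have e : f = f0 := GSP V G c j L H F u b f f0 hu tb hub.symm k2 h1 k3 h2
      subst e
      exact h4 z k1
    · push Not at h
      exact ⟨∅, by simp, fun f z _ h1 h2 => (h f h1 h2).elim⟩
  obtain ⟨L6, c6, k6⟩ := own2 (c := c) F.reg H u
  set PR : Finset (V × V) := {(r0, x), (r0, y), (r', x), (r', y)} with hPR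
  have cPR : PR.card ≤ 4 := Finset.card_le_four
  have kr : ∀ f z, LS G c H f z → f = r0 ∨ f = r' → (f, z) ∈ PR := by
    intro f z h1 h2
    have h3 := h1.2.1
    have h4 := h1.2.2.1
    rw [hPR]
    simp only [Finset.mem_insert, Finset.mem_singleton, Prod.mk.injEq]
    rcases h2 with rfl | rfl
    · rcases (hQ.h1.n3.nb z).1 h4 with h5 | h5 | h5
      · exact (ne_tf h3.1 htS.1 h5).elim
      · tauto
      · tauto
    · rcases (hQ.h2.n3.nb z).1 h4 with h5 | h5 | h5
      · exact (ne_tf h3.1 hQ.h2.cm h5).elim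
      · tauto
      · tauto
  set P := PR ∪ L2 ∪ L3 ∪ L6 ∪ LA with hP
  have slots : ∀ f z, LS G c H f z → f = r0 ∨ f = r' ∨ f = u ∨ f = v → (f, z) ∈ P := by
    intro f z h1 h2
    rw [hP]
    rcases h2 with h2 | h2 | h2 | h2
    · exact Finset.mem_union_left _ (Finset.mem_union_left _ (Finset.mem_union_left _
        (Finset.mem_union_left _ (kr f z h1 (Or.inl h2)))))
    · exact Finset.mem_union_left _ (Finset.mem_union_left _ (Finset.mem_union_left _
        (Finset.mem_union_left _ (kr f z h1 (Or.inr h2)))))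
    · rw [h2]
      exact Finset.mem_union_left _ (Finset.mem_union_right _ (k6 z (h2 ▸ h1)))
    · rw [h2]
      exact Finset.mem_union_left _ (Finset.mem_union_left _ (Finset.mem_union_left _
        (Finset.mem_union_right _ (k2 z (h2 ▸ h1)))))
  have slots2 : ∀ f z, LS G c H f z → f = r0 ∨ f = r' → (f, z) ∈ P := by
    intro f z h1 h2
    rcases h2 with h2 | h2
    · exact slots f z h1 (Or.inl h2)
    · exact slots f z h1 (Or.inr (Or.inl h2))
  have slots3 : ∀ f z, LS G c H f z → f = u ∨ f = v → (f, z) ∈ P := by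
    intro f z h1 h2
    exact slots f z h1 (Or.inr (Or.inr h2))
  have slotx : ∀ f z, LS G c H f z → z = x ∨ z = y ∨ z = a ∨ z = b → (f, z) ∈ P := by
    intro f z h1 h2
    have h3 := h1.1
    have h4 := h1.2.2.2.1
    have h5 := h1.2.2.1.symm
    rcases h2 with h2 | h2 | h2 | h2
    · exact slots2 f z h1 (sqg_only hQ h3 (h2 ▸ h5))
    · exact slots2 f z h1 (sqg_only hQ.hub h3 (h2 ▸ h5))
    · exact slots3 f z h1 (haf f h3 h4 (h2 ▸ h5))
    · exact slots3 f z h1 (hbf f h3 h4 (h2 ▸ h5))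
  have slotw : ∀ f z, LS G c H f z → G.Adj z p → z ≠ a → (f, z) ∈ P := by
    intro f z h1 h2 h3
    by_cases h4 : f = r0 ∨ f = r' ∨ f = u ∨ f = v
    · exact slots f z h1 h4
    · push Not at h4
      rw [hP]
      exact Finset.mem_union_right _ (k1 f z h1 h2 h3 h4.2.2.1 h4.2.2.2 h4.1 h4.2.1)
  have slotA : ∀ f z, LS G c H f z → ¬ Clr G H2 f ∨ ¬ Clr G H2 z → (f, z) ∈ P := by
    intro f z h1 h2
    rcases h2 with h2 | h2
    · exact slots f z h1 (nfr f h1.1 h1.2.2.2.1 h2)
    · rcases nta z h1.2.1 h1.2.2.2.2 h2 with h3 | h3 | h3 | h3 | ⟨h3, h4⟩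
      · exact slotx f z h1 (Or.inl h3)
      · exact slotx f z h1 (Or.inr (Or.inl h3))
      · exact slotx f z h1 (Or.inr (Or.inr (Or.inl h3)))
      · exact slotx f z h1 (Or.inr (Or.inr (Or.inr h3)))
      · exact slotw f z h1 h3 h4
  -- free mates
  have hmate : ∀ f m, Rm G c f m → Live G c H m → ¬ Live G c H2 m → Clr G H2 f → f ∈ Fr G c →
      False := by
    intro f m h1 h2 h3 h4 h5
    have h6 : ¬ Clr G H2 m := fun h => h3 ⟨h2.1, h⟩
    rcases nfr m h2.1 h2.2 h6 with h7 | h7 | h7 | h7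
    · exact h4.2 r0 (h7 ▸ h1.1) m_r
    · have e : f = v' := rm_uniq (hm _) h1.symm (by rw [h7]; exact sv_rm hQ.h2)
      rw [e] at h4 h5
      exact hv' ⟨h5, h4.mono hsub⟩
    · exact h4.2 u (h7 ▸ h1.1) m_u
    · have e : f = u := rm_uniq (hm _) h1.symm (by rw [h7]; exact huv.symm)
      rw [e] at h4
      exact h4.1 m_u
  -- mates and sources in `T1`
  have hmT : ∀ f m, Rm G c f m → Avl G c H m → ¬ Avl G c H2 m → Clr G H2 f → G.Adj b m := by
    intro f m h1 h2 h3 h4
    have h6 : ¬ Clr G H2 m := fun h => h3 ⟨h2.1, h⟩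
    have key : m = t ∨ m = v' → False := by
      intro h
      rcases h with h | h
      · have e : f = r0 := rm_uniq (hm _) h1.symm (by rw [h]; exact htr)
        rw [e] at h4
        exact h4.1 m_r
      · have e : f = r' := rm_uniq (hm _) h1.symm (by rw [h]; exact (sv_rm hQ.h2).symm)
        rw [e] at h4
        exact h4.2 x hxr'.symm m_x
    rcases nt1 m h2.1 h2.2 h6 with h7 | h7 | h7 | h7 | h7
    · exact (key (Or.inl h7)).elim
    · have e : f = u := rm_uniq (hm _) h1.symm (by rw [h7]; exact huv.symm)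
      rw [e] at h4
      exact (h4.1 m_u).elim
    · exact (key (zxT m h2.1 (Or.inl h7))).elim
    · exact (key (zxT m h2.1 (Or.inr h7))).elim
    · exact h7
  have hsT : ∀ w m, L w m → Avl G c H m → ¬ Avl G c H2 m → G.Adj b m := by
    intro w m h1 h2 h3
    have h6 : ¬ Clr G H2 m := fun h => h3 ⟨h2.1, h⟩
    have key : m = t ∨ m = v' → False := by
      intro h
      rcases h with h | h
      · exact src_ne F h1 (by rw [h]; exact htr) hrF
      · exact src_ne F h1 (by rw [h]; exact (sv_rm hQ.h2).symm) hrF'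
    rcases nt1 m h2.1 h2.2 h6 with h7 | h7 | h7 | h7 | h7
    · exact (key (Or.inl h7)).elim
    · exact (src_ne F h1 (by rw [h7]; exact huv.symm) hu).elim
    · exact (key (zxT m h2.1 (Or.inl h7))).elim
    · exact (key (zxT m h2.1 (Or.inr h7))).elim
    · exact h7
  refine loss_of (P := P) (LQ := LQ) (LV := {r0, r', u, v}) F ?_ ?_ ?_ ?_ ?_
  · -- good slots
    intro f z g1 g2
    have hls := g1.1
    rcases GGL V G c j L H H2 F hsub f z g1 g2 with h | h | ⟨t', r1, hM', h3, h4, h6⟩ |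
      ⟨g, y1, vf, vg, z1, z2, hS, hls2, hg2, hor, n1, n2, n3, n4⟩
    · exact slotA f z hls (Or.inl h)
    · exact slotA f z hls (Or.inr h)
    · -- a vertex of `T1` lost
      obtain ⟨_, m2, m3, m4, m5, m6, m7, m8⟩ := hM'
      rcases nt1 t' h3.1 h3.2 h4 with h7 | h7 | h7 | h7 | h7
      · exact (h6 (by rw [rm_uniq (hm _) m5 (by rw [h7]; exact htr)]; exact m_r)).elim
      · exact (h6 (by rw [rm_uniq (hm _) m5 (by rw [h7]; exact huv.symm)]; exact m_u)).elim
      · exact slotx f z hls (Or.inl (t1_A F h3.1 h7.symm hQ.ta m2.symm hls.2.1))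
      · exact slotx f z hls (Or.inr (Or.inl (t1_A F h3.1 h7.symm hQ.tb m2.symm hls.2.1)))
      · exact slotx f z hls (Or.inr (Or.inr (Or.inr
          (t1_A F h3.1 h7.symm tb m2.symm hls.2.1))))
    · -- a slot of a square: spoil at `b`
      have hlf : ¬ Live G c H vf := fun h =>
        hmate f vf (sv_rm hS.h1) h n1 hls2.2.2.2.1 hls.1
      have hlg : ¬ Live G c H vg := fun h =>
        hmate g vg (sv_rm hS.h2) h n3 hg2.2 hg2.1
      have hsp : SpG G c L H b f := by
        rcases hor with h | h | h | ⟨y', h, h'⟩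
        · exact (hlf h).elim
        · exact ⟨vf, g, z, y1, vf, vg, z1, z2, hmT f vf (sv_rm hS.h1) h n2 hls2.2.2.2.1, h, hS,
            ⟨hls.1, hls.2.2.2.1⟩, hg2.mono hsub, hlf, hlg, Or.inl rfl⟩
        · exact (hlg h).elim
        · exact ⟨y', g, z, y1, vf, vg, z1, z2, hsT vf y' h h' (n4 y' h), h', hS,
            ⟨hls.1, hls.2.2.2.1⟩, hg2.mono hsub, hlf, hlg, Or.inr h⟩
      have hfu : f ≠ u := by
        intro h
        have := hls2.2.2.2.1
        rw [h] at this
        exact this.1 m_u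
      rw [hP]
      exact Finset.mem_union_left _ (Finset.mem_union_left _
        (Finset.mem_union_right _ (k3 f z hls hfu hsp)))
  · -- branches
    intro f vf z b1 t1 t1' q1 q1' κ κ' K hls hκ h
    by_cases h1 : ¬ Clr G H2 f ∨ ¬ Clr G H2 z
    · exact Or.inl (slotA f z hls h1)
    have h2 : ¬ Clr G H2 κ := by
      push Not at h1
      rcases h with h | h | h
      · exact (h h1.1).elim
      · exact (h h1.2).elim
      · exact h
    have tκ : tQ G c κ := ⟨by rw [K.q1.2, K.h1.cb], mu_of_rm hm K.q1.symm⟩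
    rcases ntq κ tκ hκ h2 with h3 | h3
    · -- `κ` is the neighbour of `t`
      left
      subst h3
      have eκt : G.Adj κ t := ((St.n3.nb κ).2 (by simp)).symm
      have hne : q1 ≠ t := ne_tf K.h1.cb htS.1
      obtain ⟨z', hN⟩ := Pool.Agent.Helper96.MC.n3_of2 F.reg K.q1.symm.1 eκt hne
      have hB := F.g3' _ _ _ _ _ _ _ _ _ _ t z' K hN htS
      by_cases e1 : t = vf
      · have e2 : f = r0 := rm_uniq (hm _) (by rw [e1]; exact (sv_rm K.hu).symm) htr
        exact slots2 f z hls (Or.inl e2)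
      by_cases e2 : t = t1'
      · have e3 : G.Adj t z := by rw [e2]; exact (K.h2.n3.nb z).2 (by simp)
        exact slotx f z hls (Or.inr (Or.inr (Or.inl (t1_A F ht hat.symm ta e3 hls.2.1))))
      · have e3 : a = b1 := F.k1 _ _ _ _ _ _ _ _ _ _ t z' r0 a K hN hB (sv_swap St) ta e1 e2
        have e4 : G.Adj a f := by
          rw [e3]
          exact ((K.hu.n3.nb b1).2 (by simp)).symm
        exact slots3 f z hls (haf f hls.1 hls.2.2.2.1 e4)
    · by_cases h4 : f = u ∨ f = v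
      · exact Or.inl (slots3 f z hls h4)
      · push Not at h4
        exact Or.inr (k1' t1 f vf z b1 t1' q1 q1' κ κ' K hls hκ h3 h4.1 h4.2)
  · intro f h1 h2
    have := nfr f h1.1 h1.2 (fun h => h2 ⟨h1.1, h⟩)
    simp only [Finset.mem_insert, Finset.mem_singleton]
    exact this
  · rw [hP]
    have d1 := Finset.card_union_le (PR ∪ L2 ∪ L3 ∪ L6) LA
    have d2 := Finset.card_union_le (PR ∪ L2 ∪ L3) L6
    have d3 := Finset.card_union_le (PR ∪ L2) L3
    have d4 := Finset.card_union_le PR L2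
    omega
  · exact Finset.card_le_four.trans (by norm_num)

/-- row G_C2, without hypotheses -/
theorem st_GC2 : ST_GC2 := gc2_of st_GGL st_GSP Pool.Agent.Helper9.MC.GW.st_GW

end Pool.Agent.Helper92.MC
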