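import Pool.Agent.Helper33.MC.St
import Pool.Agent.Helper91.MC.ONE
import Pool.Agent.Helper91.MC.SVX
import Pool.Agent.Helper92.MC.FCNT

/-!
MP_4042d8_co, section D: the start (row D_ST).
-/

set_option autoImplicit false
set_option linter.unusedSectionVars false
set_option linter.unusedSimpArgs false
set_option linter.unusedVariables false

namespace Pool.Agent.Helper92.MC

open Pool.Agent.Helper27.MC hiding Fr T1 ter
open Pool.Agent.Helper51.MC Pool.Agent.Helper88.MC Pool.Agent.Helper64.MC
  Pool.Agent.Helper91.MC Pool.Agent.Helper33.MC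

variable {V : Type} [Fintype V] [DecidableEq V] {G : SimpleGraph V} [DecidableRel G.Adj]

theorem clr_empty (v : V) : Clr G ∅ v := ⟨by simp, fun w _ => by simp⟩

/-- no vertex of type `Q` has two neighbours of type `S` -/
theorem th_zero' {c : V → Bool} (hX : Fx G c) : (Th G c).card = 0 := by
  rw [Finset.card_eq_zero, Finset.eq_empty_iff_forall_notMem]
  intro q hq
  obtain ⟨h1, h2⟩ := mem_Th.1 hq
  unfold nS at h2
  obtain ⟨s, s', hne, he⟩ := Finset.card_eq_two.1 h2
  have hs : s ∈ Finset.univ.filter (fun w => G.Adj q w ∧ tS G c w) := by rw [he]; simp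
  have hs' : s' ∈ Finset.univ.filter (fun w => G.Adj q w ∧ tS G c w) := by rw [he]; simp
  rw [Finset.mem_filter] at hs hs'
  exact hne (hX.f1 q s s' h1 hs.2.2 hs'.2.2 hs.2.1 hs'.2.1)

/-- a slot of a free vertex whose mate is not of type `D` is good at the start -/
theorem gs_start (hF : ST_FCNT) {c : V → Bool} {j : ℕ} (hX : Fx G c) (hi : imb c = 2 * (j : ℤ))
    {u m a : V} (hu : u ∈ Fr G c) (hum : Rm G c u m) (hm : m ∉ Dd G c) (ha : tA G c a)
    (hua : G.Adj u a) : GS G c ∅ u a := by
  have hG := hX.reg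
  have h1 := hX.mu1
  refine ⟨⟨hu, ha, hua, clr_empty _, clr_empty _⟩, ?_⟩
  obtain ⟨y, z, A⟩ := av_ex hG ha hua.symm
  have hS := (mem_Fr.1 hu).1
  have key : ∀ y, G.Adj a y → tS G c y → y ≠ u →
      ((∃ t, G.Adj a t ∧ t ≠ u ∧ Avl G c ∅ t) ∨
       (∃ g, G.Adj a g ∧ g ≠ u ∧ Live G c ∅ g ∧
        ((∃ m, Rm G c u m ∧ (Live G c ∅ m ∨ Avl G c ∅ m)) ∨
          ∃ m, Rm G c g m ∧ Live G c ∅ m))) := by
    intro y hy hyS hyu
    obtain ⟨r, e, Sy⟩ := sv_ex hG hyS hy.symm ha.1
    rcases (hF V G hG c j h1 hi).2 y hyS with h | h | h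
    · right
      refine ⟨y, hy, hyu, ⟨h, clr_empty _⟩, Or.inl ⟨m, hum, ?_⟩⟩
      have hmS : tS G c m := by
        obtain ⟨m', b, S⟩ := sv_ex hG hS hua ha.1
        have : m' = m := rm_uniq (h1 u) (sv_rm S) hum
        subst this
        exact sv_tSm h1 S
      rcases (hF V G hG c j h1 hi).2 m hmS with h | h | h
      · exact Or.inl ⟨h, clr_empty _⟩
      · exact Or.inr ⟨h, clr_empty _⟩
      · exact absurd h hm
    · left
      exact ⟨y, hy, hyu, h, clr_empty _⟩
    · exact absurd ((sv_Dd h1 Sy).1 h).1 (tA_not_tQ ha)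
  have ey : G.Adj a y := (A.n3.nb y).2 (by simp)
  have ez : G.Adj a z := (A.n3.nb z).2 (by simp)
  rcases tB_or_tS h1 A.cy with hy | hy
  · rcases tB_or_tS h1 A.cz with hz | hz
    · left
      intro w hw hwu w' hww
      exfalso
      rcases (A.n3.nb w).1 hw with h | h | h
      · exact hwu h
      · exact nomate hy.2 w' (h ▸ hww)
      · exact nomate hz.2 w' (h ▸ hww)
    · exact Or.inr (key z ez hz A.n3.xz.symm)
  · exact Or.inr (key y ey hy A.n3.xy.symm)

/-- row D_ST -/
theorem st_DST (hF : ST_FCNT) : ST_DST := by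
  classical
  intro V _ _ G _ c j hX hi
  have hG := hX.reg
  have hm := hX.mu1
  have hcount := (hF V G hG c j hm hi).1
  rw [th_zero' hX] at hcount
  constructor
  · have hmate : ∀ u, ∃ v, u ∈ Fr G c → Rm G c u v := by
      intro u
      by_cases h : u ∈ Fr G c
      · obtain ⟨v, hv⟩ := exists_mate (mem_Fr.1 h).1.2
        exact ⟨v, fun _ => hv⟩
      · exact ⟨u, fun h' => absurd h' h⟩
    choose f hf using hmate
    set FD := (Fr G c).filter (fun u => f u ∈ Dd G c) with hFD
    set FN := (Fr G c).filter (fun u => ¬ f u ∈ Dd G c) with hFN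
    have h1 : FD.card + FN.card = (Fr G c).card := Finset.card_filter_add_card_filter_not _
    have h2 : FD.card ≤ (Dd G c).card := by
      refine Finset.card_le_card_of_injOn f ?_ ?_
      · intro u hu
        exact (Finset.mem_filter.1 hu).2
      · intro u hu u' hu' he
        have k1 := hf u (Finset.mem_filter.1 hu).1
        have k2 := hf u' (Finset.mem_filter.1 hu').1
        rw [he] at k1
        exact rm_uniq (hm _) k1.symm k2.symm
    have h3 : ((good G c ∅).filter (fun p => p.1 ∈ FN)).card =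
        ∑ u ∈ FN, (((good G c ∅).filter (fun p => p.1 ∈ FN)).filter (fun p => p.1 = u)).card :=
      Finset.card_eq_sum_card_fiberwise (fun p hp => (Finset.mem_filter.1 hp).2)
    have h4 : ∑ u ∈ FN, 2 ≤
        ∑ u ∈ FN, (((good G c ∅).filter (fun p => p.1 ∈ FN)).filter (fun p => p.1 = u)).card := by
      refine Finset.sum_le_sum ?_
      intro u hu
      obtain ⟨k1, k2⟩ := Finset.mem_filter.1 hu
      obtain ⟨m, a, b, S, ma, mb⟩ : ∃ m a b, Sv G c u m a b ∧ tA G c a ∧ tA G c b := by
        obtain ⟨m, x, y, nb, cm, cx, cy, hxy, hmx, hmy⟩ := s_data hG (mem_Fr.1 k1).1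
        have S : Sv G c u m x y := ⟨(mem_Fr.1 k1).1.1, cm, cx, cy, ⟨nb, hmx, hmy, hxy⟩⟩
        exact ⟨m, x, y, S, (sv_Fr hm S).1 k1⟩
      have ga := gs_start hF hX hi k1 (hf u k1) k2 ma ((S.n3.nb a).2 (by simp))
      have gb := gs_start hF hX hi k1 (hf u k1) k2 mb ((S.n3.nb b).2 (by simp))
      have hab : (u, a) ≠ (u, b) := by
        intro h
        exact S.n3.yz (Prod.ext_iff.1 h).2
      rw [← Finset.card_pair hab]
      refine Finset.card_le_card ?_
      intro p hp
      rw [Finset.mem_insert, Finset.mem_singleton] at hp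
      unfold good
      simp only [Finset.mem_filter, Finset.mem_univ, true_and]
      rcases hp with rfl | rfl
      · exact ⟨⟨ga, hu⟩, rfl⟩
      · exact ⟨⟨gb, hu⟩, rfl⟩
    have h5 : ((good G c ∅).filter (fun p => p.1 ∈ FN)).card ≤ (good G c ∅).card :=
      Finset.card_filter_le _ _
    rw [Finset.sum_const, smul_eq_mul] at h4
    omega
  · have : Fr G c ⊆ live G c ∅ := by
      intro u hu
      unfold live
      simp only [Finset.mem_filter, Finset.mem_univ, true_and]
      exact ⟨hu, clr_empty _⟩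
    have := Finset.card_le_card this
    omega

/-- row D_ST without hypotheses -/
theorem st_DST' : ST_DST := st_DST st_FCNT

end Pool.Agent.Helper92.MC
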