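import Pool.Agent.Helper92.MC.TF
import Pool.Agent.Helper45.MC.EF
import Pool.Agent.Helper53.MC.CCF

/-!
MP_4042d8_co: assembly for arbitrary cubic graphs; the case `2 ≤ j` is an input.
-/

set_option autoImplicit false

namespace Pool.Agent.Helper92.MC

open Pool.Agent.Helper27.MC hiding Fr T1 ter
open Pool.Agent.Helper64.MC

/-- the case `j = 1`, arbitrary cubic graphs -/
theorem j1_all : Pool.Agent.Helper45.MC.ST_EJ :=
  Pool.Agent.Helper45.MC.EJ_of Pool.Agent.Helper35.MC.st_H3 Pool.Agent.Helper53.MC.cCC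

/-- the conjecture, from the case `2 ≤ j` -/
theorem all_of (hJ : ∀ (V : Type) [Fintype V] [DecidableEq V] (G : SimpleGraph V)
      [DecidableRel G.Adj], G.IsRegularOfDegree 3 → ∀ (c : V → Bool) (j : ℕ), 2 ≤ j →
        Opt G c j → Good G)
    (V : Type) [Fintype V] [DecidableEq V] (G : SimpleGraph V) [DecidableRel G.Adj]
    (hG : G.IsRegularOfDegree 3) :
    ∃ B : Finset V, 2 * B.card = Fintype.card V ∧
      Nonempty (SimpleGraph.Iso (G.induce (↑B : Set V)) (G.induce ((↑B : Set V)ᶜ))) := by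
  refine sol_all V G hG (fun c hO => ?_) (fun c j hO hj => ?_)
  · obtain ⟨c', hc'⟩ := j1_all V G hG c hO
    exact ISO2 hG c' hc'
  · obtain ⟨c', hc'⟩ := hJ V G hG c j hj hO
    exact ISO2 hG c' hc'

end Pool.Agent.Helper92.MC
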