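import Pool.Agent.Helper92.MC.DC2a

/-!
MP_4042d8_co, section D: Case 2 (row D_C2).
-/

set_option autoImplicit false
set_option linter.unusedSectionVars false
set_option linter.unusedSimpArgs false
set_option linter.unusedVariables false

namespace Pool.Agent.Helper92.MC

open Pool.Agent.Helper27.MC Pool.Agent.Helper51.MC Pool.Agent.Helper88.MC Pool.Agent.Helper64.MC
open Pool.Agent.Helper91.MC Pool.Agent.Helper33.MC

/-- row D_C2 -/
theorem st_DC2 : ST_DC2 := by
  intro V _ _ G _ c H F hI hPN hP2
  classical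
  obtain ⟨u, a, t, r, r', x, y, v', w, w', hM, hQ, hr, hr', hv'⟩ := hP2
  obtain ⟨hl, hat, htu, ht, htr, hrH⟩ := hM
  obtain ⟨v, b, Su, tb⟩ := fr_sv F hl.1 hl.2.2.1 hl.2.1
  have ta := hl.2.1
  have hu := hl.1
  have hua := hl.2.2.1
  have huS := fr_tS F hu
  have htS := t1_tS F ht
  have hrF := hQ.fr1 F
  have hrF' := hQ.fr2 F
  have hrS := fr_tS F hrF
  have htF : t ∉ Fr G c := fun h => fr_not_T1 F h ht
  obtain ⟨p, A⟩ : ∃ p, Av G c a u p t := by
    obtain ⟨y, z, A⟩ := av_ex F.reg ta hua.symm
    rcases (A.n3.nb t).1 hat with h | h | h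
    · exact (htu h).elim
    · subst h; exact ⟨z, av_swap' A⟩
    · subst h; exact ⟨y, A⟩
  have hp : tB G c p := third_B F (av_swap' A) huS htS ta
  have hap : G.Adj a p := (A.n3.nb p).2 (by tauto)
  obtain ⟨r0, q, St, hq⟩ := t1_sv F ht hat.symm ta
  have e0 : r0 = r := (sv_mate F St htr).symm
  subst e0
  have hub : G.Adj u b := (Su.n3.nb b).2 (by tauto)
  have huv : Rm G c u v := sv_rm Su
  -- `a` is not adjacent to another free vertex
  have haf : ∀ g, g ∈ Fr G c → G.Adj a g → g = u := by
    intro g hg h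
    rcases (A.n3.nb g).1 h with h1 | h1 | h1
    · exact h1
    · exact (B_not_S hp (fr_tS F hg) h1.symm).elim
    · rw [h1] at hg
      exact (htF hg).elim
  have hbf : ∀ g, g ∈ Fr G c → G.Adj b g → g = u := fun g hg h =>
    only_u F Su hu haf tb hg h
  have hxr : G.Adj x r0 := (hQ.ha.n3.nb r0).2 (by tauto)
  have hyr : G.Adj y r0 := (hQ.hb.n3.nb r0).2 (by tauto)
  have hxr' : G.Adj x r' := (hQ.ha.n3.nb r').2 (by tauto)
  have hru : r0 ≠ u := by
    rintro rfl
    exact F.tf r0 t a htr.1.symm hat.symm hua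
  have hax : a ≠ x := by
    rintro rfl
    exact F.tf r0 t a htr.1.symm hat.symm hxr.symm
  have hay : a ≠ y := by
    rintro rfl
    exact F.tf r0 t a htr.1.symm hat.symm hyr.symm
  have hbx : b ≠ x := by
    rintro rfl
    exact hru (hbf r0 hrF hxr)
  have hby : b ≠ y := by
    rintro rfl
    exact hru (hbf r0 hrF hyr)
  have hvr : v ≠ r0 := by
    rintro rfl
    exact htu (rm_uniq (F.mu1 _) htr.symm huv.symm)
  have hrt : r0 ≠ t := htr.ne.symm
  have hrp : p ≠ r0 := B_not_S hp hrS
  -- the operations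
  set H1 := H ∪ {r0, x, y} with hH1
  set H2 := H1 ∪ {u, b, p, a, t} with hH2
  have o1 : OpU G c H H1 := ⟨r0, t, x, y, hQ.h1, hQ.ta, hQ.tb, hr.2, rfl⟩
  have cu1 : Clr G H1 u := by
    by_contra hn
    obtain ⟨k, hk, h⟩ := nclr hl.2.2.2.1 hn
    simp only [Finset.mem_insert, Finset.mem_singleton] at hk
    rcases hk with rfl | rfl | rfl
    · rcases h with h | h
      · exact hru h.symm
      · rcases (Su.n3.nb k).1 h with h1 | h1 | h1
        · exact hvr h1.symm
        · exact ne_tf ta.1 hQ.h1.cs h1.symm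
        · exact ne_tf tb.1 hQ.h1.cs h1.symm
    · rcases h with h | h
      · exact ne_tf hQ.ta.1 huS.1 h.symm
      · rcases (Su.n3.nb k).1 h with h1 | h1 | h1
        · exact ne_tf hQ.ta.1 Su.cm h1
        · exact hax h1.symm
        · exact hbx h1.symm
    · rcases h with h | h
      · exact ne_tf hQ.tb.1 huS.1 h.symm
      · rcases (Su.n3.nb k).1 h with h1 | h1 | h1
        · exact ne_tf hQ.tb.1 Su.cm h1
        · exact hay h1.symm
        · exact hby h1.symm
  have ca1 : Clr G H1 a := by
    by_contra hn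
    obtain ⟨k, hk, h⟩ := nclr hl.2.2.2.2 hn
    simp only [Finset.mem_insert, Finset.mem_singleton] at hk
    rcases hk with rfl | rfl | rfl
    · rcases h with h | h
      · exact ne_tf ta.1 hQ.h1.cs h
      · rcases (A.n3.nb k).1 h with h1 | h1 | h1
        · exact hru h1
        · exact hrp h1.symm
        · exact hrt h1
    · rcases h with h | h
      · exact hax h
      · exact aa_no ta hQ.ta.1 h
    · rcases h with h | h
      · exact hay h
      · exact aa_no ta hQ.tb.1 h
  have o2 : OpN G c H1 H2 := by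
    refine ⟨u, v, a, b, p, t, Su, A, ta, tb, cu1, ca1, bare_B F hp, ?_, rfl⟩
    intro z hz
    right
    rw [sv_mate F St hz, hH1]
    simp
  refine ⟨H1, H2, o1, o2, ?_⟩
  -- the new hard vertices
  have hHH : H2 = H ∪ {r0, x, y, u, b, p, a, t} := by
    rw [hH2, hH1]
    ext z
    simp only [Finset.mem_union, Finset.mem_insert, Finset.mem_singleton]
    tauto
  have hsub : H ⊆ H2 := by
    rw [hHH]
    exact Finset.subset_union_left
  have mem2 : ∀ z, z = r0 ∨ z = x ∨ z = y ∨ z = u ∨ z = b ∨ z = p ∨ z = a ∨ z = t → z ∈ H2 := by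
    intro z hz
    rw [hHH]
    simp only [Finset.mem_union, Finset.mem_insert, Finset.mem_singleton]
    tauto
  have ncl : ∀ z, Clr G H z → ¬ Clr G H2 z → ∃ k, (k = r0 ∨ k = x ∨ k = y ∨ k = u ∨ k = b ∨
      k = p ∨ k = a ∨ k = t) ∧ (z = k ∨ G.Adj z k) := by
    intro z h1 h2
    rw [hHH] at h2
    obtain ⟨k, hk, h⟩ := nclr h1 h2
    simp only [Finset.mem_insert, Finset.mem_singleton] at hk
    exact ⟨k, hk, h⟩
  have nfr : ∀ z, z ∈ Fr G c → Clr G H z → ¬ Clr G H2 z → z = r0 ∨ z = r' ∨ z = u ∨ z = v := by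
    intro z hz h1 h2
    have zS := fr_tS F hz
    obtain ⟨k, hk, h⟩ := ncl z h1 h2
    rcases hk with rfl | rfl | rfl | rfl | rfl | rfl | rfl | rfl
    · rcases h with h | h
      · exact Or.inl h
      · rcases (hQ.h1.n3.nb z).1 h.symm with h3 | h3 | h3
        · rw [h3] at hz
          exact (htF hz).elim
        · exact (ne_tf hQ.ta.1 zS.1 h3.symm).elim
        · exact (ne_tf hQ.tb.1 zS.1 h3.symm).elim
    · rcases h with h | h
      · exact (ne_tf hQ.ta.1 zS.1 h.symm).elim
      · rcases hQ.only F zS h.symm with h3 | h3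
        · exact Or.inl h3
        · exact Or.inr (Or.inl h3)
    · rcases h with h | h
      · exact (ne_tf hQ.tb.1 zS.1 h.symm).elim
      · rcases hQ.swapA.only F zS h.symm with h3 | h3
        · exact Or.inl h3
        · exact Or.inr (Or.inl h3)
    · rcases h with h | h
      · exact Or.inr (Or.inr (Or.inl h))
      · rcases (Su.n3.nb z).1 h.symm with h3 | h3 | h3
        · exact Or.inr (Or.inr (Or.inr h3))
        · exact (ne_tf ta.1 zS.1 h3.symm).elim
        · exact (ne_tf tb.1 zS.1 h3.symm).elim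
    · rcases h with h | h
      · exact (ne_tf tb.1 zS.1 h.symm).elim
      · exact Or.inr (Or.inr (Or.inl (hbf z hz h.symm)))
    · rcases h with h | h
      · exact (B_not_S hp zS h.symm).elim
      · exact (bb_no hp zS.1 h.symm).elim
    · rcases h with h | h
      · exact (ne_tf ta.1 zS.1 h.symm).elim
      · exact Or.inr (Or.inr (Or.inl (haf z hz h.symm)))
    · rcases h with h | h
      · rw [h] at hz
        exact (htF hz).elim
      · rcases (St.n3.nb z).1 h.symm with h3 | h3 | h3
        · exact Or.inl h3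
        · exact (ne_tf ta.1 zS.1 h3.symm).elim
        · exact (ne_tf hq.1 zS.1 h3.symm).elim
  have nt1 : ∀ z, z ∈ T1 G c → Clr G H z → ¬ Clr G H2 z → z = t ∨ z = v ∨ (G.Adj b z ∧ z ≠ u) := by
    intro z hz h1 h2
    have zS := t1_tS F hz
    have hzF : z ∉ Fr G c := fun h => fr_not_T1 F h hz
    have hzu : z ≠ u := by rintro rfl; exact hzF hu
    obtain ⟨k, hk, h⟩ := ncl z h1 h2
    rcases hk with rfl | rfl | rfl | rfl | rfl | rfl | rfl | rfl
    · rcases h with h | h
      · rw [h] at hzF
        exact (hzF hrF).elim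
      · rcases (hQ.h1.n3.nb z).1 h.symm with h3 | h3 | h3
        · exact Or.inl h3
        · exact (ne_tf hQ.ta.1 zS.1 h3.symm).elim
        · exact (ne_tf hQ.tb.1 zS.1 h3.symm).elim
    · rcases h with h | h
      · exact (ne_tf hQ.ta.1 zS.1 h.symm).elim
      · rcases hQ.only F zS h.symm with h3 | h3
        · rw [h3] at hzF
          exact (hzF hrF).elim
        · rw [h3] at hzF
          exact (hzF hrF').elim
    · rcases h with h | h
      · exact (ne_tf hQ.tb.1 zS.1 h.symm).elim
      · rcases hQ.swapA.only F zS h.symm with h3 | h3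
        · rw [h3] at hzF
          exact (hzF hrF).elim
        · rw [h3] at hzF
          exact (hzF hrF').elim
    · rcases h with h | h
      · exact (hzu h).elim
      · rcases (Su.n3.nb z).1 h.symm with h3 | h3 | h3
        · exact Or.inr (Or.inl h3)
        · exact (ne_tf ta.1 zS.1 h3.symm).elim
        · exact (ne_tf tb.1 zS.1 h3.symm).elim
    · rcases h with h | h
      · exact (ne_tf tb.1 zS.1 h.symm).elim
      · exact Or.inr (Or.inr ⟨h.symm, hzu⟩)
    · rcases h with h | h
      · exact (B_not_S hp zS h.symm).elim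
      · exact (bb_no hp zS.1 h.symm).elim
    · rcases h with h | h
      · exact (ne_tf ta.1 zS.1 h.symm).elim
      · rcases (A.n3.nb z).1 h.symm with h3 | h3 | h3
        · exact (hzu h3).elim
        · exact (B_not_S hp zS h3.symm).elim
        · exact Or.inl h3
    · rcases h with h | h
      · exact Or.inl h
      · rcases (St.n3.nb z).1 h.symm with h3 | h3 | h3
        · rw [h3] at hzF
          exact (hzF hrF).elim
        · exact (ne_tf ta.1 zS.1 h3.symm).elim
        · exact (ne_tf hq.1 zS.1 h3.symm).elim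
  have nta : ∀ z, tA G c z → Clr G H z → ¬ Clr G H2 z → z = x ∨ z = y ∨ z = a ∨ z = b ∨
      (G.Adj z p ∧ z ≠ a) := by
    intro z hz h1 h2
    obtain ⟨k, hk, h⟩ := ncl z h1 h2
    by_cases hza : z = a
    · tauto
    rcases hk with rfl | rfl | rfl | rfl | rfl | rfl | rfl | rfl
    · rcases h with h | h
      · exact (ne_tf hz.1 hQ.h1.cs h).elim
      · rcases (hQ.h1.n3.nb z).1 h.symm with h3 | h3 | h3
        · exact (ne_tf hz.1 htS.1 h3).elim
        · tauto
        · tauto
    · rcases h with h | h
      · tauto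
      · exact (aa_no hz hQ.ta.1 h).elim
    · rcases h with h | h
      · tauto
      · exact (aa_no hz hQ.tb.1 h).elim
    · rcases h with h | h
      · exact (ne_tf hz.1 huS.1 h).elim
      · rcases (Su.n3.nb z).1 h.symm with h3 | h3 | h3
        · exact (ne_tf hz.1 Su.cm h3).elim
        · tauto
        · tauto
    · rcases h with h | h
      · tauto
      · exact (aa_no hz tb.1 h).elim
    · rcases h with h | h
      · exact (ne_tf hz.1 hp.1 h).elim
      · tauto
    · rcases h with h | h
      · tauto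
      · exact (aa_no hz ta.1 h).elim
    · rcases h with h | h
      · exact (ne_tf hz.1 htS.1 h).elim
      · rcases (St.n3.nb z).1 h.symm with h3 | h3 | h3
        · exact (ne_tf hz.1 hQ.h1.cs h3).elim
        · tauto
        · rw [h3] at hz
          exact (tA_not_tQ hz hq).elim
  -- the lists
  obtain ⟨L1, c1, k1⟩ := st_DW V G c H F u v a p hl huv hap A.n3.xy.symm (bare_B F hp)
  obtain ⟨L2, c2, k2⟩ := own_slots F (H := H) v
  obtain ⟨L3, c3, k3⟩ := mate_slots F (H := H) hu hub tb
  obtain ⟨L4, c4, k4⟩ := own_slots F (H := H) r0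
  obtain ⟨L5, c5, k5⟩ := own_slots F (H := H) r'
  obtain ⟨L6, c6, k6⟩ := own_slots F (H := H) u
  have slots : ∀ f z, LS G c H f z → f = r0 ∨ f = r' ∨ f = u ∨ f = v →
      (f, z) ∈ L1 ∪ L2 ∪ L3 ∪ L4 ∪ L5 ∪ L6 := by
    intro f z h1 h2
    simp only [Finset.mem_union]
    rcases h2 with rfl | rfl | rfl | rfl
    · have := k4 z h1; tauto
    · have := k5 z h1; tauto
    · have := k6 z h1; tauto
    · have := k2 z h1; tauto
  constructor
  · -- good slots
    have hsubL : good G c H \ good G c H2 ⊆ L1 ∪ L2 ∪ L3 ∪ L4 ∪ L5 ∪ L6 := by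
      rintro ⟨f, z⟩ hfz
      unfold good at hfz
      simp only [Finset.mem_sdiff, Finset.mem_filter, Finset.mem_univ, true_and] at hfz
      obtain ⟨g1, g2⟩ := hfz
      have hls := g1.1
      by_cases hf4 : f = r0 ∨ f = r' ∨ f = u ∨ f = v
      · exact slots f z hls hf4
      have cf : Clr G H2 f := by
        by_contra hn
        exact hf4 (nfr f hls.1 hls.2.2.2.1 hn)
      have mf : ∀ m, m ∈ H2 → f ≠ m ∧ ¬ G.Adj f m := fun m hm =>
        ⟨fun e => cf.1 (e ▸ hm), fun e => cf.2 m e hm⟩
      have hmate : ∀ m, Rm G c f m → m ∈ Fr G c → Clr G H m → ¬ Clr G H2 m → Live G c H f → False := by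
        intro m h1 h2 h3 h4 h5
        rcases nfr m h2 h3 h4 with h6 | h6 | h6 | h6
        · exact (mf r0 (mem2 _ (by tauto))).2 (h6 ▸ h1.1)
        · subst h6
          have := sv_mate F hQ.h2 h1.symm
          subst this
          exact hv' h5
        · exact (mf u (mem2 _ (by tauto))).2 (h6 ▸ h1.1)
        · subst h6
          exact (mf u (mem2 _ (by tauto))).1 (rm_uniq (F.mu1 _) h1.symm huv.symm)
      rcases st_DGL V G c H H2 F hsub f z g1 g2 with h | h | ⟨t', r1, h1, h2, h3, h4, h5, h6⟩ |
        ⟨m, h1, h2, h3, h4, h5⟩ | ⟨m, h1, h2, h3, h4, h5⟩ | ⟨g, m, h1, h2, h3, h4, h5, h6, h7⟩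
      · exact (h cf).elim
      · rcases nta z hls.2.1 hls.2.2.2.2 h with h1 | h1 | h1 | h1 | ⟨h1, h2⟩
        · subst h1
          rcases hQ.only F (fr_tS F hls.1) hls.2.2.1.symm with h3 | h3 <;> exact slots f z hls (by tauto)
        · subst h1
          rcases hQ.swapA.only F (fr_tS F hls.1) hls.2.2.1.symm with h3 | h3 <;>
            exact slots f z hls (by tauto)
        · subst h1
          exact slots f z hls (by have := haf f hls.1 hls.2.2.1.symm; tauto)
        · subst h1
          exact slots f z hls (by have := hbf f hls.1 hls.2.2.1.symm; tauto)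
        · have := k1 f z hls h1 h2 (by tauto) (by tauto)
          simp only [Finset.mem_union]
          tauto
      · -- a vertex of `T1` lost
        rcases nt1 t' h3.1 h3.2 h4 with h7 | h7 | ⟨h7, h8⟩
        · subst h7
          exact (h6 (by rw [sv_mate F St h5]; exact mem2 _ (by tauto))).elim
        · subst h7
          exact (h6 (by rw [rm_uniq (F.mu1 _) h5 huv.symm]; exact mem2 _ (by tauto))).elim
        · -- `z = b`
          have e : z = b := by
            obtain ⟨r2, q2, S2, hq2⟩ := t1_sv F h3.1 h1.symm hls.2.1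
            rcases (S2.n3.nb b).1 h7.symm with h9 | h9 | h9
            · exact (ne_tf tb.1 S2.cm h9).elim
            · exact h9.symm
            · rw [← h9] at hq2
              exact (tA_not_tQ tb hq2).elim
          subst e
          exact slots f z hls (by have := hbf f hls.1 hls.2.2.1.symm; tauto)
      · -- the mate of `f` in `T1` lost
        rcases nt1 m h2.1 h2.2 h3 with h7 | h7 | ⟨h7, h8⟩
        · subst h7
          exact ((mf m (mem2 _ (by tauto))).2 h1.1).elim
        · subst h7
          exact ((mf u (mem2 _ (by tauto))).1 (rm_uniq (F.mu1 _) h1.symm huv.symm)).elim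
        · have := k3 f z m hls h1 h7 h8
          simp only [Finset.mem_union]
          tauto
      · exact (hmate m h1 h2.1 h2.2 h3 ⟨hls.1, hls.2.2.2.1⟩).elim
      · -- the mate of the partner
        exfalso
        have gc := h4.2
        have mg : ∀ m, m ∈ H2 → g ≠ m ∧ ¬ G.Adj g m := fun m hm =>
          ⟨fun e => gc.1 (e ▸ hm), fun e => gc.2 m e hm⟩
        rcases nfr m h6.1 h6.2 h7 with h8 | h8 | h8 | h8
        · exact (mg r0 (mem2 _ (by tauto))).2 (h8 ▸ h5.1)
        · subst h8
          have := sv_mate F hQ.h2 h5.symm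
          subst this
          exact hv' h3
        · exact (mg u (mem2 _ (by tauto))).2 (h8 ▸ h5.1)
        · subst h8
          exact (mg u (mem2 _ (by tauto))).1 (rm_uniq (F.mu1 _) h5.symm huv.symm)
    refine le_trans (Finset.card_le_card hsubL) ?_
    have d1 := Finset.card_union_le (L1 ∪ L2 ∪ L3 ∪ L4 ∪ L5) L6
    have d2 := Finset.card_union_le (L1 ∪ L2 ∪ L3 ∪ L4) L5
    have d3 := Finset.card_union_le (L1 ∪ L2 ∪ L3) L4
    have d4 := Finset.card_union_le (L1 ∪ L2) L3
    have d5 := Finset.card_union_le L1 L2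
    omega
  · have hsubL : live G c H \ live G c H2 ⊆ {r0, r', u, v} := by
      intro f hf
      unfold live at hf
      simp only [Finset.mem_sdiff, Finset.mem_filter, Finset.mem_univ, true_and] at hf
      obtain ⟨h1, h2⟩ := hf
      have := nfr f h1.1 h1.2 (fun h => h2 ⟨h1.1, h⟩)
      simp only [Finset.mem_insert, Finset.mem_singleton]
      exact this
    refine le_trans (Finset.card_le_card hsubL) (le_trans Finset.card_le_four (by norm_num))

end Pool.Agent.Helper92.MC
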