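import Pool.Agent.Helper92.MC.SQ3
import Pool.Agent.Helper92.MC.FCNT
import Pool.Agent.Helper91.MC.ONE
import Pool.Agent.Helper91.MC.SVX
import Pool.Agent.Helper78.MC.CC
import Pool.Agent.Helper78.MC.SQ
import Pool.Agent.Helper9.MC.Hub
import Pool.Agent.Helper35.MC.H2
import Pool.Agent.Helper27.MC.Base2

/-!
MP_4042d8_co, row J1: the case `j = 1` for triangle-free cubic graphs.
-/

set_option autoImplicit false
set_option linter.unusedSectionVars false
set_option linter.unusedSimpArgs false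
set_option linter.unusedVariables false

namespace Pool.Agent.Helper92.MC

open Pool.Agent.Helper27.MC hiding Fr T1 ter
open Pool.Agent.Helper51.MC Pool.Agent.Helper88.MC Pool.Agent.Helper64.MC
  Pool.Agent.Helper91.MC Pool.Agent.Helper78.MC

variable {V : Type} [Fintype V] [DecidableEq V] {G : SimpleGraph V} [DecidableRel G.Adj]

/-! ### data of vertices -/

theorem rm_tri (hT : NoTri G) {c : V → Bool} {a x y : V} (h1 : G.Adj a x) (h2 : G.Adj a y) :
    ¬ Rm G c x y := fun h => hT x y a h.1 h2.symm h1.symm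

/-- the data of an `S`-vertex with given mate and given true neighbour -/
theorem sv_ex2 (hG : G.IsRegularOfDegree 3) {c : V → Bool} (hm : ∀ v, mu G c v ≤ 1) {s m a : V}
    (hs : tS G c s) (h : G.Adj s a) (ca : c a = true) (hsm : Rm G c s m) :
    ∃ b, Sv G c s m a b := by
  obtain ⟨m', b, S⟩ := sv_ex hG hs h ca
  have : m' = m := rm_uniq (hm s) (sv_rm S) hsm
  subst this
  exact ⟨b, S⟩

/-- the data of an `S`-vertex with given mate -/
theorem sv_ex1 (hG : G.IsRegularOfDegree 3) {c : V → Bool} (hm : ∀ v, mu G c v ≤ 1) {s m : V}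
    (hs : tS G c s) (hsm : Rm G c s m) : ∃ a b, Sv G c s m a b := by
  obtain ⟨m', a, b, nb, cm, ca, cb, hab, h1, h2⟩ := s_data hG hs
  obtain ⟨b', S⟩ := sv_ex2 hG hm hs ((nb a).2 (by simp)) ca hsm
  exact ⟨a, b', S⟩

/-- the data of a `Q`-vertex with a given false neighbour -/
theorem q_ex (hG : G.IsRegularOfDegree 3) {c : V → Bool} {q s : V} (hq : tQ G c q)
    (h : G.Adj q s) (cs : c s = false) :
    ∃ q' z, N3 G q q' s z ∧ c q' = true ∧ c z = false := by
  obtain ⟨m, x, y, h1, h2, h3, nb, cm, cx, cy⟩ := (NB V G hG c q).1 hq.2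
  rw [hq.1] at cm cx cy
  rcases (nb s).1 h with h4 | h4 | h4
  · rw [h4, cm] at cs; cases cs
  · subst h4
    exact ⟨m, y, ⟨nb, h1, h2, h3⟩, cm, cy⟩
  · subst h4
    exact ⟨m, x, ⟨fun w => (nb w).trans (by tauto), h2, h1, h3.symm⟩, cm, cx⟩

theorem hub_perm {c : V → Bool} {a s1 s2 s3 v1 v2 v3 p1 p2 p3 : V}
    (H : Hub3 G c a s1 s2 s3 v1 v2 v3 p1 p2 p3) : Hub3 G c a s2 s1 s3 v2 v1 v3 p2 p1 p3 :=
  ⟨⟨H.av.ca, H.av.cy, H.av.cx, H.av.cz, ⟨fun w => (H.av.n3.nb w).trans (by tauto),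
    H.av.n3.xy.symm, H.av.n3.yz, H.av.n3.xz⟩⟩, H.h2, H.h1, H.h3, fun h => H.n12 h.symm, H.n23,
    H.n13⟩

theorem hub_perm' {c : V → Bool} {a s1 s2 s3 v1 v2 v3 p1 p2 p3 : V}
    (H : Hub3 G c a s1 s2 s3 v1 v2 v3 p1 p2 p3) : Hub3 G c a s1 s3 s2 v1 v3 v2 p1 p3 p2 :=
  ⟨⟨H.av.ca, H.av.cx, H.av.cz, H.av.cy, ⟨fun w => (H.av.n3.nb w).trans (by tauto),
    H.av.n3.xz, H.av.n3.xy, H.av.n3.yz.symm⟩⟩, H.h1, H.h3, H.h2, H.n13, H.n12,
    fun h => H.n23 h.symm⟩

/-- a 3-hub from three `S`-neighbours -/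
theorem mk_hub (hG : G.IsRegularOfDegree 3) (hT : NoTri G) {c : V → Bool} {a s1 s2 s3 : V}
    (hA : Av G c a s1 s2 s3) (h1 : tS G c s1) (h2 : tS G c s2) (h3 : tS G c s3) :
    ∃ v1 v2 v3 p1 p2 p3, Hub3 G c a s1 s2 s3 v1 v2 v3 p1 p2 p3 := by
  have e1 : G.Adj a s1 := (hA.n3.nb s1).2 (by simp)
  have e2 : G.Adj a s2 := (hA.n3.nb s2).2 (by simp)
  have e3 : G.Adj a s3 := (hA.n3.nb s3).2 (by simp)
  obtain ⟨v1, p1, S1⟩ := sv_ex hG h1 e1.symm hA.ca
  obtain ⟨v2, p2, S2⟩ := sv_ex hG h2 e2.symm hA.ca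
  obtain ⟨v3, p3, S3⟩ := sv_ex hG h3 e3.symm hA.ca
  exact ⟨v1, v2, v3, p1, p2, p3, hA, S1, S2, S3, rm_tri hT e1 e2, rm_tri hT e1 e3,
    rm_tri hT e2 e3⟩

/-! ### the number of free vertices -/

theorem th_zero (hG : G.IsRegularOfDegree 3) (hT : NoTri G) {c : V → Bool} (hO : Opt G c 1) :
    (Th G c).card = 0 := by
  rw [Finset.card_eq_zero, Finset.eq_empty_iff_forall_notMem]
  intro q hq
  obtain ⟨h1, h2⟩ := mem_Th.1 hq
  unfold nS at h2
  obtain ⟨s, s', hne, he⟩ := Finset.card_eq_two.1 h2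
  have hs : s ∈ Finset.univ.filter (fun w => G.Adj q w ∧ tS G c w) := by rw [he]; simp
  have hs' : s' ∈ Finset.univ.filter (fun w => G.Adj q w ∧ tS G c w) := by rw [he]; simp
  rw [Finset.mem_filter] at hs hs'
  have := F1 hG (le_refl 1) hO h1 hs.2.2 hs'.2.2 hs.2.1 hs'.2.1 hne
  exact rm_tri hT hs.2.1 hs'.2.1 this

theorem fr_card (hF : ST_FCNT) (hG : G.IsRegularOfDegree 3) (hT : NoTri G) {c : V → Bool}
    (hO : Opt G c 1) : (Fr G c).card = 6 + (Dd G c).card + (Q0 G c).card := by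
  have h := (hF V G hG c 1 hO.mu1 hO.imb2).1
  rw [th_zero hG hT hO] at h
  omega


/-! ### slots -/

theorem av_swap {c : V → Bool} {a x y z : V} (A : Av G c a x y z) : Av G c a x z y :=
  ⟨A.ca, A.cx, A.cz, A.cy, ⟨fun w => (A.n3.nb w).trans (by tauto), A.n3.xz, A.n3.xy,
    A.n3.yz.symm⟩⟩

theorem av_rot {c : V → Bool} {a x y z : V} (A : Av G c a x y z) : Av G c a y x z :=
  ⟨A.ca, A.cy, A.cx, A.cz, ⟨fun w => (A.n3.nb w).trans (by tauto), A.n3.xy.symm, A.n3.yz,
    A.n3.xz⟩⟩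

section fin

variable {c : V → Bool}

/-- a slot has exactly one further neighbour of type `S` -/
theorem slot_cases (hF : ST_FCNT) (hH3 : ST_H3) (hG : G.IsRegularOfDegree 3) (hT : NoTri G) (hO : Opt G c 1) (hg : ¬ Good G)
    {u v a b : V} (S : Sv G c u v a b) (Aa : tA G c a) (Bb : tA G c b) :
    ∃ t w, Av G c a u t w ∧ tS G c t ∧ tB G c w := by
  have hm := hO.mu1
  have hu := sv_tS hm S
  have eau : G.Adj a u := ((S.n3.nb a).2 (by simp)).symm
  obtain ⟨x, y, A⟩ := av_ex hG Aa eau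
  have f6 := fr_card hF hG hT hO
  rcases tB_or_tS hm A.cy with hx | hx <;> rcases tB_or_tS hm A.cz with hy | hy
  · exfalso
    apply hg
    exact (st_ONE V G hG c hO).2.1 u v a b x y (sv_slot hm S Bb A)
      (fun w h => absurd h (nomate hx.2 w)) (fun w h => absurd h (nomate hy.2 w)) (by omega)
  · exact ⟨y, x, av_swap A, hy, hx⟩
  · exact ⟨x, y, A, hx, hy⟩
  · exfalso
    apply hg
    obtain ⟨v1, v2, v3, p1, p2, p3, H⟩ := mk_hub hG hT A hu hx hy
    exact Pool.Agent.Helper9.MC.hub_all hH3 hF hG hO H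

/-- the third neighbour of a square is of type `B` -/
theorem third_B (hF : ST_FCNT) (hH3 : ST_H3) (hG : G.IsRegularOfDegree 3) (hT : NoTri G) (hO : Opt G c 1) (hg : ¬ Good G)
    {b u t w : V} (A : Av G c b u t w) (hu : tS G c u) (ht : tS G c t) : tB G c w := by
  rcases tB_or_tS hO.mu1 A.cz with h | h
  · exact h
  · exfalso
    apply hg
    obtain ⟨v1, v2, v3, p1, p2, p3, H⟩ := mk_hub hG hT A hu ht h
    exact Pool.Agent.Helper9.MC.hub_all hH3 hF hG hO H

/-- squares: the mate of `t` is of type `D` -/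
theorem square (hF : ST_FCNT) (hH3 : ST_H3) (hG : G.IsRegularOfDegree 3) (hT : NoTri G) (hO : Opt G c 1) (hg : ¬ Good G)
    {u v t r a b w : V} (Su : Sv G c u v a b) (St : Sv G c t r a b) (Ta : tA G c a)
    (Tb : tA G c b) (Aa : Av G c a u t w) (Bw : tB G c w) : r ∈ Dd G c := by
  have hm := hO.mu1
  have hu := sv_tS hm Su
  have ht := sv_tS hm St
  have hut : u ≠ t := Aa.n3.xy
  have eau : G.Adj a u := (Aa.n3.nb u).2 (by simp)
  have eat : G.Adj a t := (Aa.n3.nb t).2 (by simp)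
  have ebu : G.Adj b u := ((Su.n3.nb b).2 (by simp)).symm
  have ebt : G.Adj b t := ((St.n3.nb b).2 (by simp)).symm
  have nut : ¬ Rm G c u t := rm_tri hT eau eat
  have rut := sv_rm Su
  have rtr := sv_rm St
  obtain ⟨w', Ab⟩ : ∃ w', Av G c b u t w' := by
    obtain ⟨x, y, A⟩ := av_ex hG Tb ebu
    rcases (A.n3.nb t).1 ebt with h | h | h
    · exact absurd h.symm hut
    · subst h; exact ⟨y, A⟩
    · subst h; exact ⟨x, av_swap A⟩
  have Bw' := third_B hF hH3 hG hT hO hg Ab hu ht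
  have f6 := fr_card hF hG hT hO
  by_cases hww : w = w'
  · subst hww
    exfalso
    apply hg
    have h4 : ({u, t, v, r} : Finset V).card ≤ 4 := Finset.card_le_four
    obtain ⟨s, hs, hn⟩ := exists_out (lt_of_le_of_lt h4 (show 4 < (Pool.Agent.Helper64.MC.Fr G c).card by omega))
    simp only [Finset.mem_insert, Finset.mem_singleton] at hn
    push Not at hn
    obtain ⟨h5, h6, h7, h8⟩ := hn
    obtain ⟨T, hB⟩ := st_SQ1 V G hG c hm u t a b w v r s Su St nut Aa Ab Bw hs h5 h6 h7 h8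
    exact good_one hO hB
  have hr := sv_tSm hm St
  obtain ⟨x, y, Sr⟩ := sv_ex1 hG hm hr rtr.symm
  have w'r : w' ≠ r := by
    rintro rfl
    exact absurd rtr.symm (nomate Bw'.2 t)
  rcases (hF V G hG c 1 hm hO.imb2).2 r hr with h | h | h
  · exfalso
    apply hg
    obtain ⟨h1, h2⟩ := (sv_Fr hm Sr).1 h
    obtain ⟨T, hB⟩ := st_SQ2 V G hG c hm u t a b w w' v r x y Su St nut Aa Ab Bw w'r Sr h1 h2
    exact good_one hO hB
  · exfalso
    apply hg
    obtain ⟨x, g, Sr, Ax, Qg⟩ : ∃ x g, Sv G c r t x g ∧ tA G c x ∧ tQ G c g := by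
      rcases (sv_T1 hm Sr).1 h with ⟨h1, h2⟩ | ⟨h1, h2⟩
      · exact ⟨x, y, Sr, h1, h2⟩
      · exact ⟨y, x, sv_swap Sr, h2, h1⟩
    have erg : G.Adj r g := (Sr.n3.nb g).2 (by simp)
    have erx : G.Adj r x := (Sr.n3.nb x).2 (by simp)
    obtain ⟨g', z, Ng, cg', cz⟩ := q_ex hG Qg erg.symm hr.1
    have egz : G.Adj g z := (Ng.nb z).2 (by simp)
    have Bz : tB G c z := by
      rcases tB_or_tS hm cz with h1 | h1
      · exact h1
      · exfalso
        exact rm_tri hT erg.symm egz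
          (F1 hG (le_refl 1) hO Qg hr h1 erg.symm egz Ng.yz)
    have h5 : (({u, t, v} : Finset V) ∪ (G.neighborFinset x).erase r).card ≤ 5 := by
      have h3 := Finset.card_union_le ({u, t, v} : Finset V) ((G.neighborFinset x).erase r)
      have h4 : ({u, t, v} : Finset V).card ≤ 3 := Finset.card_le_three
      have h6 := nb_erase hG erx.symm
      omega
    obtain ⟨s, hs, hn⟩ := exists_out (lt_of_le_of_lt h5 (show 5 < (Pool.Agent.Helper64.MC.Fr G c).card by omega))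
    simp only [Finset.mem_union, Finset.mem_insert, Finset.mem_singleton, Finset.mem_erase,
      SimpleGraph.mem_neighborFinset] at hn
    push Not at hn
    obtain ⟨⟨h6, h7, h8⟩, h9⟩ := hn
    have hsr : s ≠ r := by
      rintro rfl
      exact tA_not_tQ (((sv_Fr hm Sr).1 hs).2) Qg
    have hsx : ¬ G.Adj s x := fun h => h9 hsr h.symm
    by_cases hzw : z = w
    · have hzw' : z ≠ w' := by
        rw [hzw]
        exact hww
      obtain ⟨T, hB⟩ := sq3 hG hm (sv_swap Su) (sv_swap St) nut Ab Aa Bw' Bw Sr Ax Qg Ng cg' Bz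
        hzw' hs h6 h7 h8 hsx
      exact good_one hO hB
    · obtain ⟨T, hB⟩ := sq3 hG hm Su St nut Aa Ab Bw Bw' Sr Ax Qg Ng cg' Bz
        hzw hs h6 h7 h8 hsx
      exact good_one hO hB
  · exact h

/-- a free vertex whose mate is not of type `D` has a slot with a vertex `t` of type `T1` -/
theorem slot_t1 (hF : ST_FCNT) (hH3 : ST_H3) (hG : G.IsRegularOfDegree 3) (hT : NoTri G) (hO : Opt G c 1) (hg : ¬ Good G)
    {u v : V} (hu : u ∈ Pool.Agent.Helper64.MC.Fr G c) (huv : Rm G c u v) (hv : v ∉ Dd G c) :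
    ∃ a b t w, Sv G c u v a b ∧ tA G c a ∧ tA G c b ∧ Av G c a u t w ∧ tB G c w ∧
      t ∈ Pool.Agent.Helper64.MC.T1 G c := by
  have hm := hO.mu1
  obtain ⟨a, b, S⟩ := sv_ex1 hG hm (mem_Fr.1 hu).1 huv
  obtain ⟨Ta, Tb⟩ := (sv_Fr hm S).1 hu
  obtain ⟨t, w, A, ht, hw⟩ := slot_cases hF hH3 hG hT hO hg S Ta Tb
  refine ⟨a, b, t, w, S, Ta, Tb, A, hw, ?_⟩
  have eau : G.Adj a u := (A.n3.nb u).2 (by simp)
  have eat : G.Adj a t := (A.n3.nb t).2 (by simp)
  obtain ⟨r, e, St⟩ := sv_ex hG ht eat.symm Ta.1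
  have rtr := sv_rm St
  have hru : r ≠ u := by
    rintro rfl
    exact rm_tri hT eau eat rtr.symm
  rcases Pool.Agent.Helper35.MC.st_H2 V G hG c 1 (le_refl 1) hO u v a b w t r (sv_slot hm S Tb (av_swap A))
    (fun x h => absurd h (nomate hw.2 x)) rtr hru with h | ⟨h1, h2⟩
  · exact h
  · exfalso
    have e1 : b = e := by
      rcases (St.n3.nb b).1 h2 with h | h | h
      · have := Tb.1
        rw [h, St.cm] at this
        cases this
      · exact absurd h.symm S.n3.yz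
      · exact h
    subst e1
    exact hv (square hF hH3 hG hT hO hg St S Ta Tb (av_rot A) hw)

/-- the case `j = 1` -/
theorem j1_good (hF : ST_FCNT) (hH3 : ST_H3) (hG : G.IsRegularOfDegree 3) (hT : NoTri G) (hO : Opt G c 1) : Good G := by
  classical
  by_contra hg
  have hm := hO.mu1
  have f6 := fr_card hF hG hT hO
  -- mates
  have hmate : ∀ u, ∃ v, u ∈ Pool.Agent.Helper64.MC.Fr G c → Rm G c u v := by
    intro u
    by_cases h : u ∈ Pool.Agent.Helper64.MC.Fr G c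
    · obtain ⟨v, hv⟩ := exists_mate (mem_Fr.1 h).1.2
      exact ⟨v, fun _ => hv⟩
    · exact ⟨u, fun h' => absurd h' h⟩
  choose f hf using hmate
  set FD := (Pool.Agent.Helper64.MC.Fr G c).filter (fun u => f u ∈ Dd G c) with hFD
  set FN := (Pool.Agent.Helper64.MC.Fr G c).filter (fun u => ¬ f u ∈ Dd G c) with hFN
  have h1 : FD.card + FN.card = (Pool.Agent.Helper64.MC.Fr G c).card :=
    Finset.card_filter_add_card_filter_not _
  have h2 : FD.card ≤ (Dd G c).card := by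
    refine Finset.card_le_card_of_injOn f ?_ ?_
    · intro u hu
      exact (Finset.mem_filter.1 hu).2
    · intro u hu u' hu' he
      have k1 := hf u (Finset.mem_filter.1 hu).1
      have k2 := hf u' (Finset.mem_filter.1 hu').1
      rw [he] at k1
      exact rm_uniq (hm _) k1.symm k2.symm
  have h3 : 6 ≤ FN.card := by omega
  have hsl : ∀ u, ∃ t, u ∈ FN → ∃ a b w, Sv G c u (f u) a b ∧ tA G c a ∧ tA G c b ∧
      Av G c a u t w ∧ tB G c w ∧ t ∈ Pool.Agent.Helper64.MC.T1 G c := by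
    intro u
    by_cases h : u ∈ FN
    · obtain ⟨k1, k2⟩ := Finset.mem_filter.1 h
      obtain ⟨a, b, t, w, k3⟩ := slot_t1 hF hH3 hG hT hO hg k1 (hf u k1) k2
      exact ⟨t, fun _ => ⟨a, b, w, k3⟩⟩
    · exact ⟨u, fun h' => absurd h' h⟩
  choose g hgt using hsl
  have h4 : FN.card ≤ (Pool.Agent.Helper64.MC.T1 G c).card := by
    refine Finset.card_le_card_of_injOn g ?_ ?_
    · intro u hu
      obtain ⟨a, b, w, -, -, -, -, -, h⟩ := hgt u hu
      exact h
    · intro u hu u' hu' he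
      obtain ⟨a, b, w, S, Ta, Tb, A, Bw, h⟩ := hgt u hu
      obtain ⟨a', b', w', S', Ta', Tb', A', Bw', h'⟩ := hgt u' hu'
      rw [← he] at A'
      have et : G.Adj a (g u) := (A.n3.nb _).2 (by simp)
      have et' : G.Adj a' (g u) := (A'.n3.nb _).2 (by simp)
      obtain ⟨m, e, St⟩ := sv_ex hG (mem_T1.1 h).1 et.symm Ta.1
      have Qe : tQ G c e := by
        rcases (sv_T1 hm St).1 h with ⟨_, k⟩ | ⟨k, _⟩
        · exact k
        · exact absurd k (tA_not_tQ Ta)
      have eaa : a' = a := by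
        rcases (St.n3.nb a').1 et'.symm with k | k | k
        · have := Ta'.1
          rw [k, St.cm] at this
          cases this
        · exact k
        · rw [k] at Ta'
          exact absurd Qe (tA_not_tQ Ta')
      subst eaa
      have eu' : G.Adj a' u' := (A'.n3.nb u').2 (by simp)
      rcases (A.n3.nb u').1 eu' with k | k | k
      · exact k.symm
      · exact absurd k A'.n3.xy
      · exfalso
        have k1 := Bw.2
        have k2 := (sv_tS hm S').2
        rw [← k] at k1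
        omega
  obtain ⟨u, hu⟩ : FN.Nonempty := by
    rw [← Finset.card_pos]
    omega
  obtain ⟨a, b, w, S, Ta, Tb, A, Bw, h⟩ := hgt u hu
  have eau : G.Adj a u := (A.n3.nb u).2 (by simp)
  have eat : G.Adj a (g u) := (A.n3.nb _).2 (by simp)
  obtain ⟨r, hr⟩ := exists_mate (mem_T1.1 h).1.2
  have hru : r ≠ u := by
    rintro rfl
    exact rm_tri hT eau eat hr.symm
  exact hg ((st_ONE V G hG c hO).2.2 u (f u) a b w (g u) r (sv_slot hm S Tb (av_swap A))
    (fun x h => absurd h (nomate Bw.2 x)) hr hru (by omega))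

end fin

/-- row J1 -/
theorem J1_of (hF : ST_FCNT) (hH3 : ST_H3) : ST_J1 := by
  intro V _ _ G _ hG hT c hO
  obtain ⟨c', hc'⟩ := j1_good hF hH3 hG hT hO
  exact ISO2 hG c' hc'

/-- row J1, only `H3` is used -/
theorem J1_H3 (hH3 : ST_H3) : ST_J1 := J1_of st_FCNT hH3

end Pool.Agent.Helper92.MC
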