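import Pool.Agent.Helper91.MC.SVX
import Pool.Agent.Helper35.MC.Ob
import Pool.Agent.Helper78.MC.SQ

/-!
MP_4042d8_co, case `j = 1`: the unit of a square `u a t b` whose vertex `t` has its mate `r` in `T1`.
-/

set_option autoImplicit false
set_option linter.unusedSectionVars false
set_option linter.unusedSimpArgs false
set_option linter.unusedVariables false

namespace Pool.Agent.Helper92.MC

open Pool.Agent.Helper27.MC Pool.Agent.Helper51.MC Pool.Agent.Helper88.MC Pool.Agent.Helper64.MC
  Pool.Agent.Helper91.MC Pool.Agent.Helper35.MC Pool.Agent.Helper78.MC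

variable {V : Type} [Fintype V] [DecidableEq V] {G : SimpleGraph V} [DecidableRel G.Adj]

/-- square `u a t b`, third neighbours `w`, `w'` of type `B`, `r` (mate of `t`) with `A`-neighbour `x`
and `Q`-neighbour `g`; `s` another free vertex -/
theorem sq3 (hG : G.IsRegularOfDegree 3) {c : V → Bool} (hm : ∀ v, mu G c v ≤ 1)
    {u t a b w w' v r x g g' z s : V} (Su : Sv G c u v a b) (St : Sv G c t r a b)
    (nut : ¬ Rm G c u t) (Aa : Av G c a u t w) (Ab : Av G c b u t w') (Bw : tB G c w)
    (Bw' : tB G c w') (Sr : Sv G c r t x g) (Ax : tA G c x) (Qg : tQ G c g)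
    (Ng : N3 G g g' r z) (cg' : c g' = true) (Bz : tB G c z) (hzw : z ≠ w)
    (hs : s ∈ Pool.Agent.Helper64.MC.Fr G c) (hsu : s ≠ u) (hst : s ≠ t) (hsv : s ≠ v)
    (hsx : ¬ G.Adj s x) : ∃ T, Blk G c {u, a, r, g, s} T := by
  obtain ⟨m, p, q, hS, mp, mq⟩ := free_nb hG hm hs
  have hsr : s ≠ r := by
    rintro rfl
    exact tA_not_tQ (((sv_Fr hm Sr).1 hs).2) Qg
  obtain ⟨cu, cv, ca, cb, ⟨nu, nva, nvb, nab⟩⟩ := Su
  obtain ⟨ct, cr, -, -, ⟨nt, nra, nrb, -⟩⟩ := St
  obtain ⟨-, -, cx, cg, ⟨nr, ntx, ntg, nxg⟩⟩ := Sr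
  obtain ⟨-, -, -, cw, ⟨na, nut', nuw, ntw⟩⟩ := Aa
  obtain ⟨-, -, -, cw', ⟨nb, -, nuw', ntw'⟩⟩ := Ab
  obtain ⟨cs, cm, cp, cq, ⟨ns, nmp, nmq, npq⟩⟩ := hS
  obtain ⟨ng, ngr, ngz, nrz⟩ := Ng
  have cz := Bz.1
  have hnw : ∀ y, ¬ Rm G c w y := nomate Bw.2
  have hnw' : ∀ y, ¬ Rm G c w' y := nomate Bw'.2
  have hnz : ∀ y, ¬ Rm G c z y := nomate Bz.2
  have hnp : ∀ y, ¬ Rm G c p y := nomate mp
  have hnq : ∀ y, ¬ Rm G c q y := nomate mq
  have hnx : ∀ y, ¬ Rm G c x y := nomate Ax.2
  have hrm : ∀ y y', G.Adj y y' → c y = c y' → Rm G c y y' := fun y y' h e => ⟨h, e.symm⟩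
  have hR : ∀ y y', Rm G c y y' ↔ (G.Adj y y' ∧ c y' = c y) := fun _ _ => Iff.rfl
  have hsym : ∀ y y', G.Adj y y' ↔ G.Adj y' y := fun y y' => G.adj_comm y y'
  have hirr : ∀ y, ¬ G.Adj y y := fun y => G.loopless.irrefl y
  have rsm : Rm G c s m := hrm s m ((ns m).2 (Or.inl rfl)) (by rw [cs, cm])
  have ruv : Rm G c u v := hrm u v ((nu v).2 (Or.inl rfl)) (by rw [cu, cv])
  have rtr : Rm G c t r := hrm t r ((nt r).2 (Or.inl rfl)) (by rw [ct, cr])
  have rgg : Rm G c g g' := hrm g g' ((ng g').2 (Or.inl rfl)) (by rw [cg, cg'])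
  have hmu : m ≠ u := by
    rintro rfl
    exact hsv (rm_uniq (hm m) rsm.symm ruv)
  have hmt : m ≠ t := by
    rintro rfl
    exact hsr (rm_uniq (hm m) rsm.symm rtr)
  have hmr : m ≠ r := by
    rintro rfl
    exact hst (rm_uniq (hm m) rsm.symm rtr.symm)
  have hvt : v ≠ t := by rintro rfl; exact nut ruv
  have hru : r ≠ u := by rintro rfl; exact nut rtr.symm
  have hvr : v ≠ r := by
    rintro rfl
    exact nut' (rm_uniq (hm v) ruv.symm rtr.symm)
  have hwr : w ≠ r := by rintro rfl; exact hnw t rtr.symm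
  have hw'r : w' ≠ r := by rintro rfl; exact hnw' t rtr.symm
  have hwv : w ≠ v := by rintro rfl; exact hnw u ruv.symm
  have hws : w ≠ s := by rintro rfl; exact hnw m rsm
  have hw's : w' ≠ s := by rintro rfl; exact hnw' m rsm
  have hzs : z ≠ s := by rintro rfl; exact hnz m rsm
  have hzu : z ≠ u := by rintro rfl; exact hnz v ruv
  have hxg' : x ≠ g' := by rintro rfl; exact hnx g rgg.symm
  have hnra : ¬ G.Adj r a := by
    rw [hsym, na]; rintro (h | h | h); exacts [hru h, rtr.ne h.symm, hwr h.symm]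
  have hnrb : ¬ G.Adj r b := by
    rw [hsym, nb]; rintro (h | h | h); exacts [hru h, rtr.ne h.symm, hw'r h.symm]
  have hxa : x ≠ a := by rintro rfl; exact hnra ((nr x).2 (by simp))
  have hxb : x ≠ b := by rintro rfl; exact hnrb ((nr x).2 (by simp))
  have hga : g ≠ a := by rintro rfl; exact hnra ((nr g).2 (by simp))
  have hgb : g ≠ b := by rintro rfl; exact hnrb ((nr g).2 (by simp))
  have hsa : ¬ G.Adj s a := by rw [hsym, na]; rintro (h | h | h); exacts [hsu h, hst h, hws h.symm]
  have hsb : ¬ G.Adj s b := by rw [hsym, nb]; rintro (h | h | h); exacts [hsu h, hst h, hw's h.symm]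
  have hpa : p ≠ a := by rintro rfl; exact hsa ((ns p).2 (by simp))
  have hpb : p ≠ b := by rintro rfl; exact hsb ((ns p).2 (by simp))
  have hqa : q ≠ a := by rintro rfl; exact hsa ((ns q).2 (by simp))
  have hqb : q ≠ b := by rintro rfl; exact hsb ((ns q).2 (by simp))
  have hpx : p ≠ x := by rintro rfl; exact hsx ((ns p).2 (by simp))
  have hqx : q ≠ x := by rintro rfl; exact hsx ((ns q).2 (by simp))
  have hpg : p ≠ g := by rintro rfl; exact hnp g' rgg
  have hqg : q ≠ g := by rintro rfl; exact hnq g' rgg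
  have hag' : a ≠ g' := by
    rintro rfl
    have := (na g).1 rgg.symm.1
    rcases this with h | h | h
    · rw [h, cu] at cg; cases cg
    · rw [h, ct] at cg; cases cg
    · rw [h, cw] at cg; cases cg
  have hg'r : ¬ G.Adj g' r := by
    rw [hsym, nr]
    rintro (h | h | h)
    · rw [h, ct] at cg'; cases cg'
    · exact hxg' h.symm
    · exact rgg.ne h.symm
  have hg's : ¬ G.Adj g' s := by
    rw [hsym, ns]
    rintro (h | h | h)
    · rw [h, cm] at cg'; cases cg'
    · rw [h] at rgg; exact hnp g rgg.symm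
    · rw [h] at rgg; exact hnq g rgg.symm
  have hg'a : ¬ G.Adj g' a := by
    rw [hsym, na]
    rintro (h | h | h)
    · rw [h, cu] at cg'; cases cg'
    · rw [h, ct] at cg'; cases cg'
    · rw [h, cw] at cg'; cases cg'
  have hna : ∀ y, ¬ Rm G c a y := by
    intro y hy
    rcases (na y).1 hy.1 with h | h | h
    · have := hy.2; rw [h, cu, ca] at this; cases this
    · have := hy.2; rw [h, ct, ca] at this; cases this
    · have := hy.2; rw [h, cw, ca] at this; cases this
  have hnb : ∀ y, ¬ Rm G c b y := by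
    intro y hy
    rcases (nb y).1 hy.1 with h | h | h
    · have := hy.2; rw [h, cu, cb] at this; cases this
    · have := hy.2; rw [h, ct, cb] at this; cases this
    · have := hy.2; rw [h, cw', cb] at this; cases this
  have hg'u : ¬ G.Adj g' u := by
    rw [hsym, nu]
    rintro (h | h | h)
    · rw [h, cv] at cg'; cases cg'
    · rw [h] at rgg; exact hna g rgg.symm
    · rw [h] at rgg; exact hnb g rgg.symm
  have dX : dd c ({u, a, r, g, s} : Finset V) = 1 := by
    have e1 : u ≠ a := by rintro rfl; rw [cu] at ca; cases ca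
    have e2 : u ≠ g := by rintro rfl; rw [cu] at cg; cases cg
    have e3 : a ≠ r := by rintro rfl; rw [cr] at ca; cases ca
    have e4 : a ≠ s := by rintro rfl; rw [cs] at ca; cases ca
    have e5 : r ≠ g := by rintro rfl; rw [cr] at cg; cases cg
    have e6 : g ≠ s := by rintro rfl; rw [cs] at cg; cases cg
    unfold dd
    rw [Finset.sum_insert (by simp [e1, e2, hru.symm, hsu.symm]), Finset.sum_insert (by simp [e3, e4, hga.symm]),
      Finset.sum_insert (by simp [e5, hsr.symm]), Finset.sum_insert (by simp [e6]), Finset.sum_singleton]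
    simp [cu, ca, cr, cg, cs]
  have mX : ∀ y, y ∈ ({u, a, r, g, s} : Finset V) ↔ y = u ∨ y = a ∨ y = r ∨ y = g ∨ y = s := by
    intro y
    simp
  generalize hX : ({u, a, r, g, s} : Finset V) = X at mX dX
  have iu : u ∈ X := by rw [mX]; simp
  have ia : a ∈ X := by rw [mX]; simp
  have ir : r ∈ X := by rw [mX]; simp
  have ig : g ∈ X := by rw [mX]; simp
  have is : s ∈ X := by rw [mX]; simp
  have oc : ∀ y, c y = true → y ≠ a → y ≠ g → y ∉ X := by
    intro y h1 h2 h3 h
    rcases (mX y).1 h with h | h | h | h | h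
    · rw [h, cu] at h1; cases h1
    · exact h2 h
    · rw [h, cr] at h1; cases h1
    · exact h3 h
    · rw [h, cs] at h1; cases h1
  have oc' : ∀ y, c y = false → y ≠ u → y ≠ r → y ≠ s → y ∉ X := by
    intro y h1 h2 h3 h4 h
    rcases (mX y).1 h with h | h | h | h | h
    · exact h2 h
    · rw [h, ca] at h1; cases h1
    · exact h3 h
    · rw [h, cg] at h1; cases h1
    · exact h4 h
  have ob := oc b cb nab.symm hgb.symm
  have ox := oc x cx hxa nxg
  have op := oc p cp hpa hpg
  have oq := oc q cq hqa hqg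
  have og' := oc g' cg' hag'.symm rgg.ne.symm
  have ot := oc' t ct nut'.symm rtr.ne hst.symm
  have ov := oc' v cv ruv.ne.symm hvr hsv.symm
  have ow := oc' w cw nuw.symm hwr hws
  have ow' := oc' w' cw' nuw'.symm hw'r hw's
  have oz := oc' z cz hzu nrz.symm hzs
  have om := oc' m cm hmu hmr rsm.ne.symm
  have fu : flp c X u = true := by rw [flp_in iu, cu]; rfl
  have fa : flp c X a = false := by rw [flp_in ia, ca]; rfl
  have fr : flp c X r = true := by rw [flp_in ir, cr]; rfl
  have fg : flp c X g = false := by rw [flp_in ig, cg]; rfl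
  have fs : flp c X s = true := by rw [flp_in is, cs]; rfl
  have fb : flp c X b = true := by rw [flp_not ob, cb]
  have fx : flp c X x = true := by rw [flp_not ox, cx]
  have fp : flp c X p = true := by rw [flp_not op, cp]
  have fq : flp c X q = true := by rw [flp_not oq, cq]
  have fg' : flp c X g' = true := by rw [flp_not og', cg']
  have ft : flp c X t = false := by rw [flp_not ot, ct]
  have fv : flp c X v = false := by rw [flp_not ov, cv]
  have fw : flp c X w = false := by rw [flp_not ow, cw]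
  have fw' : flp c X w' = false := by rw [flp_not ow', cw']
  have fz : flp c X z = false := by rw [flp_not oz, cz]
  have fm : flp c X m = false := by rw [flp_not om, cm]
  have Ru : ∀ y, Rm G (flp c X) u y ↔ y = b := by
    intro y; rw [rm3 nu, fu, fa, fb, fv]; simp
  have Ra : ∀ y, Rm G (flp c X) a y ↔ y = t ∨ y = w := by
    intro y; rw [rm3 na, fu, fa, ft, fw]; simp
  have Rb : ∀ y, Rm G (flp c X) b y ↔ y = u := by
    intro y; rw [rm3 nb, fu, fb, ft, fw']; simp
  have Rt : ∀ y, Rm G (flp c X) t y ↔ y = a := by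
    intro y; rw [rm3 nt, fr, fa, fb, ft]; simp
  have Rr : ∀ y, Rm G (flp c X) r y ↔ y = x := by
    intro y; rw [rm3 nr, fr, fx, fg, ft]; simp
  have Rg : ∀ y, Rm G (flp c X) g y ↔ y = z := by
    intro y; rw [rm3 ng, fr, fz, fg, fg']; simp
  have Rs : ∀ y, Rm G (flp c X) s y ↔ y = p ∨ y = q := by
    intro y; rw [rm3 ns, fs, fp, fq, fm]; simp
  have Rw : ∀ y, Rm G (flp c X) w y ↔ y = a := by
    intro y
    rw [rm0 Bw.2 ow, mX]
    constructor
    · rintro ⟨rfl | rfl | rfl | rfl | rfl, h2, h3⟩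
      · rw [cu, cw] at h3; exact absurd rfl h3
      · rfl
      · rw [cr, cw] at h3; exact absurd rfl h3
      · exfalso
        rcases (ng w).1 h2.symm with h | h | h
        · rw [← h, cw] at cg'; cases cg'
        · exact hwr h
        · exact hzw h.symm
      · rw [cs, cw] at h3; exact absurd rfl h3
    · rintro rfl
      exact ⟨Or.inr (Or.inl rfl), ((na w).2 (by simp)).symm, by rw [ca, cw]; decide⟩
  have Rx : ∀ y, Rm G (flp c X) x y ↔ y = r := by
    intro y
    rw [rm0 Ax.2 ox, mX]
    constructor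
    · rintro ⟨rfl | rfl | rfl | rfl | rfl, h2, h3⟩
      · exfalso
        rcases (nu x).1 h2.symm with h | h | h
        · rw [h, cv] at cx; cases cx
        · exact hxa h
        · exact hxb h
      · rw [ca, cx] at h3; exact absurd rfl h3
      · rfl
      · rw [cg, cx] at h3; exact absurd rfl h3
      · exact absurd h2.symm hsx
    · rintro rfl
      exact ⟨by simp, ((nr x).2 (by simp)).symm, by rw [cr, cx]; decide⟩
  have Rz : ∀ y, Rm G (flp c X) z y → y = g := by
    intro y
    rw [rm0 Bz.2 oz, mX]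
    rintro ⟨rfl | rfl | rfl | rfl | rfl, h2, h3⟩
    · rw [cu, cz] at h3; exact absurd rfl h3
    · exfalso
      rcases (na z).1 h2.symm with h | h | h
      · exact hzu h
      · rw [h] at hnz; exact hnz r rtr
      · exact hzw h
    · rw [cr, cz] at h3; exact absurd rfl h3
    · rfl
    · rw [cs, cz] at h3; exact absurd rfl h3
  have key : ∀ y, c y = true → mu G c y = 0 → y ≠ a → y ≠ b → y ≠ x → y ∉ X →
      G.Adj s y → ∀ y', Rm G (flp c X) y y' ↔ y' = s := by
    intro y cy my h1 h2 h3 oy hsy y'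
    rw [rm0 my oy, mX]
    constructor
    · rintro ⟨rfl | rfl | rfl | rfl | rfl, h4, h5⟩
      · exfalso
        rcases (nu y).1 h4.symm with h | h | h
        · rw [h, cv] at cy; cases cy
        · exact h1 h
        · exact h2 h
      · rw [ca, cy] at h5; exact absurd rfl h5
      · exfalso
        rcases (nr y).1 h4.symm with h | h | h
        · rw [h, ct] at cy; cases cy
        · exact h3 h
        · rw [h] at my; exact nomate my g' rgg
      · rw [cg, cy] at h5; exact absurd rfl h5
      · rfl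
    · rintro rfl
      exact ⟨by simp, hsy.symm, by rw [cs, cy]; decide⟩
  have Rp := key p cp mp hpa hpb hpx op ((ns p).2 (by simp))
  have Rq := key q cq mq hqa hqb hqx oq ((ns q).2 (by simp))
  refine ⟨Finset.univ, ?_⟩
  refine Blk.of2 (Finset.subset_univ _) dX (comp3 npq fp Rp Rs Rq)
    (comp3 ntw ft Rt Ra Rw) (fun _ => Finset.mem_univ _) (fun _ => Finset.mem_univ _) ?_
  intro y h1 h2
  have y1 : y ≠ p := h1 0
  have y2 : y ≠ s := h1 1
  have y3 : y ≠ q := h1 2
  have y4 : y ≠ t := h2 0
  have y5 : y ≠ a := h2 1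
  have y6 : y ≠ w := h2 2
  by_cases yu : y = u
  · subst yu; exact mu_le_one fun y' h => (Ru y').1 h
  by_cases yb : y = b
  · subst yb; exact mu_le_one fun y' h => (Rb y').1 h
  by_cases yr : y = r
  · subst yr; exact mu_le_one fun y' h => (Rr y').1 h
  by_cases yg : y = g
  · subst yg; exact mu_le_one fun y' h => (Rg y').1 h
  by_cases yx : y = x
  · subst yx; exact mu_le_one fun y' h => (Rx y').1 h
  by_cases yz : y = z
  · subst yz; exact mu_le_one fun y' h => Rz y' h
  have oy : y ∉ X := by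
    rw [mX]
    push Not
    exact ⟨yu, y5, yr, yg, y2⟩
  refine mu_old hm oy ?_
  intro y' hy' hadj hc
  rw [mX] at hy'
  rcases hy' with rfl | rfl | rfl | rfl | rfl
  · rcases (nu y).1 hadj.symm with h | h | h
    · rw [h, cv, cu] at hc; exact hc rfl
    · exact y5 h
    · exact yb h
  · rcases (na y).1 hadj.symm with h | h | h
    · exact yu h
    · exact y4 h
    · exact y6 h
  · rcases (nr y).1 hadj.symm with h | h | h
    · exact y4 h
    · exact yx h
    · exact yg h
  · rcases (ng y).1 hadj.symm with h | h | h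
    · rw [h, cg', cg] at hc; exact hc rfl
    · exact yr h
    · exact yz h
  · rcases (ns y).1 hadj.symm with h | h | h
    · rw [h, cm, cs] at hc; exact hc rfl
    · exact y1 h
    · exact y3 h

end Pool.Agent.Helper92.MC
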