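import Pool.Agent.Helper92.MC.J1
import Pool.Agent.Helper92.MC.DST
import Pool.Agent.Helper92.MC.DC2
import Pool.Agent.Helper33.MC.Loss2
import Pool.Agent.Helper88.MC.DC3
import Pool.Agent.Helper81.MC.C5
import Pool.Agent.Helper54.MC.DC4
import Pool.Agent.Helper35.MC.DR3
import Pool.Agent.Helper35.MC.H3
import Pool.Agent.Helper91.MC.D1
import Pool.Agent.Helper6.MC.DSeq
import Pool.Agent.Helper27.MC.FIN5

/-!
MP_4042d8_co: all triangle-free cubic graphs (assembly of the rows).
-/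

set_option autoImplicit false

namespace Pool.Agent.Helper92.MC

open Pool.Agent.Helper27.MC hiding Fr T1 ter
open Pool.Agent.Helper64.MC Pool.Agent.Helper33.MC

theorem dc3 : ST_DC3 := by
  intro V _ _ G _ c H F
  exact Pool.Agent.Helper88.MC.DB.st_DC3 F st_DCLS st_DW V G c H F

/-- the case `2 ≤ j` -/
theorem dj_tf : ST_DJ :=
  Pool.Agent.Helper91.MC.st_DJ Pool.Agent.Helper35.MC.st_DFX
    (Pool.Agent.Helper91.MC.st_DCOMB st_DC1 st_DC2 dc3
      Pool.Agent.Helper54.MC.st_DC4 Pool.Agent.Helper81.MC.st_DC5 st_DST')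
    Pool.Agent.Helper6.MC.DSEQ

/-- the case `j = 1` -/
theorem j1_tf : ST_J1 := J1_H3 Pool.Agent.Helper35.MC.st_H3

/-- every triangle-free cubic graph has a bisection with isomorphic halves -/
theorem tri_free (V : Type) [Fintype V] [DecidableEq V]
    (G : SimpleGraph V) [DecidableRel G.Adj] (hG : G.IsRegularOfDegree 3)
    (hT : ∀ x y z : V, G.Adj x y → G.Adj y z → ¬ G.Adj x z) :
    ∃ B : Finset V, 2 * B.card = Fintype.card V ∧
      Nonempty (SimpleGraph.Iso (G.induce (↑B : Set V)) (G.induce ((↑B : Set V)ᶜ))) := by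
  refine sol_all V G hG (fun c hO => j1_tf V G hG hT c hO) ?_
  intro c j hO hj
  obtain ⟨c', hc'⟩ := dj_tf V G hG hT c j hj hO
  exact ISO2 hG c' hc'

end Pool.Agent.Helper92.MC
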